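import Pool.Agent.H94.Stab.Basic

set_option autoImplicit false

/-!
The arithmetic part of the resonance test.
-/

namespace Pool.Agent.H94.Stab

open Set

theorem one_sub_abs_cos_ge (x : ℝ) (y : ℕ) (h : |x - y| ≤ 1 / 2) :
    2 * (x - y) ^ 2 ≤ 1 - |Real.cos (Real.pi * x)| := by
  have e : Real.pi * x = Real.pi * (x - y) + y * Real.pi := by ring
  rw [e, Real.cos_add_nat_mul_pi, abs_mul, abs_pow, abs_neg, abs_one, one_pow, one_mul]
  have hb : |Real.pi * (x - y)| ≤ Real.pi / 2 := by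
    rw [abs_mul, abs_of_pos Real.pi_pos]
    nlinarith [Real.pi_pos]
  have hcos : 0 ≤ Real.cos (Real.pi * (x - y)) := by
    apply Real.cos_nonneg_of_neg_pi_div_two_le_of_le <;> linarith [abs_le.1 hb |>.1, abs_le.1 hb |>.2]
  rw [abs_of_nonneg hcos]
  have h1 := Real.cos_le_one_sub_mul_cos_sq (x := Real.pi * (x - y))
    (by linarith [Real.pi_pos])
  have h2 : 2 / Real.pi ^ 2 * (Real.pi * (x - y)) ^ 2 = 2 * (x - y) ^ 2 := by
    have := Real.pi_ne_zero
    field_simp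
  linarith

/-- Polynomial type data: `H` is the homogenisation of `Pr`, and `Pr` is locally Lipschitz with
polynomial growth. -/
structure PolyData {κ : Type*} (Pr : (κ → ℝ) → ℝ) (H : ℝ → (κ → ℝ) → ℝ)
    (d d' : ℕ) (K : ℝ) : Prop where
  hom : ∀ q0 : ℝ, q0 ≠ 0 → ∀ q : κ → ℝ, H q0 q = q0 ^ d * Pr (fun i => q i / q0)
  K1 : 1 ≤ K
  lip : ∀ x y : κ → ℝ, ∀ B : ℝ, 1 ≤ B → ∀ h : ℝ, 0 ≤ h → h ≤ 1 → (∀ i, |x i| ≤ B) →
    (∀ i, |y i| ≤ B) → (∀ i, |x i - y i| ≤ h) → |Pr x - Pr y| ≤ K * B ^ d' * h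

/-- The trichotomy: either one of the two polynomial constraints is violated substantially, or some
frequency ratio is far from every integer. -/
theorem trichotomy {κ : Type*} {Pr : (κ → ℝ) → ℝ} {H : ℝ → (κ → ℝ) → ℝ}
    {d d' : ℕ} {K : ℝ} (hP : PolyData Pr H d d' K) (i0 : κ) (n : ℕ)
    (hint : ∀ y : κ → ℕ, y i0 = n → 1 ≤ |Pr (fun i => (y i : ℝ))|)
    {M : ℕ} (hM2 : 2 ≤ M) (hMd : d + 1 ≤ M) (hMd' : d' + 1 ≤ M)
    {q0 : ℝ} (hq0 : 0 < q0) (hq0' : q0 ≤ 1 / 2) (hq0K : q0 ≤ 1 / (2 * K))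
    {q : κ → ℝ} (hq : ∀ i, 0 ≤ q i) (hq' : ∀ i, q i ≤ 1 / 2) :
    q0 ^ (2 * M) ≤ (H q0 q) ^ 2 ∨ q0 ^ (2 * M) ≤ (q i0 - n * q0) ^ 2 ∨
      ∃ i, 2 * q0 ^ (2 * M) ≤ 1 - |Real.cos (Real.pi * (q i / q0))| := by
  classical
  set x : κ → ℝ := fun i => q i / q0 with hx
  set y : κ → ℕ := fun i => ⌊x i + 1 / 2⌋₊ with hy
  have hx0 : ∀ i, 0 ≤ x i := fun i => div_nonneg (hq i) hq0.le
  have hxy : ∀ i, |x i - y i| ≤ 1 / 2 := by
    intro i
    have h1 : (y i : ℝ) ≤ x i + 1 / 2 := Nat.floor_le (by linarith [hx0 i])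
    have h2 : x i + 1 / 2 < y i + 1 := Nat.lt_floor_add_one _
    rw [abs_le]; constructor <;> linarith
  have hKpos : 0 < K := by linarith [hP.K1]
  have hq01 : q0 ≤ 1 := by linarith
  by_cases hyn : y i0 = n
  · by_cases hPx : 1 / 2 ≤ |Pr x|
    · left
      rw [hP.hom q0 hq0.ne' q, mul_pow, ← pow_mul]
      have h1 : (1 / 4 : ℝ) ≤ (Pr x) ^ 2 := by
        rw [← sq_abs]; nlinarith
      have h2 : q0 ^ (2 * M) ≤ q0 ^ (2 * d + 2) :=
        pow_le_pow_of_le_one hq0.le hq01 (by omega)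
      have h3 : q0 ^ (2 * d + 2) ≤ q0 ^ (2 * d) * (1 / 4) := by
        rw [pow_add]
        apply mul_le_mul_of_nonneg_left _ (by positivity)
        nlinarith
      have h4 : q0 ^ (2 * d) * (1 / 4) ≤ q0 ^ (2 * d) * (Pr x) ^ 2 :=
        mul_le_mul_of_nonneg_left h1 (by positivity)
      have h5 : d * 2 = 2 * d := by ring
      rw [h5]
      linarith
    · right; right
      by_contra hcon
      push Not at hcon hPx
      have hle : ∀ i, |x i - y i| ≤ q0 ^ M := by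
        intro i
        have h1 := one_sub_abs_cos_ge (x i) (y i) (hxy i)
        have h2 := hcon i
        have h3 : (x i - y i) ^ 2 < q0 ^ (2 * M) := by
          have : 2 * (x i - y i) ^ 2 < 2 * q0 ^ (2 * M) := lt_of_le_of_lt h1 h2
          linarith
        have h4 : q0 ^ (2 * M) = (q0 ^ M) ^ 2 := by rw [← pow_mul]; ring_nf
        rw [h4] at h3
        exact abs_le_of_sq_le_sq h3.le (by positivity)
      have hB : (1:ℝ) ≤ 1 / q0 := by
        rw [le_div_iff₀ hq0]; linarith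
      have hxB : ∀ i, |x i| ≤ 1 / q0 := by
        intro i
        rw [abs_of_nonneg (hx0 i), hx]
        simp only
        gcongr
        linarith [hq' i]
      have hyB : ∀ i, |(y i : ℝ)| ≤ 1 / q0 := by
        intro i
        rw [abs_of_nonneg (by positivity)]
        have h1 : (y i : ℝ) ≤ x i + 1 / 2 := Nat.floor_le (by linarith [hx0 i])
        have h2 : x i ≤ 1 / 2 / q0 := by
          rw [hx]; simp only; gcongr; exact hq' i
        have h3 : (1:ℝ) / 2 / q0 = 1 / q0 - 1 / 2 / q0 := by field_simp; norm_num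
        have h4 : (1:ℝ) / 2 ≤ 1 / 2 / q0 := by
          rw [le_div_iff₀ hq0]; linarith
        linarith
      have hl := hP.lip x (fun i => (y i : ℝ)) (1 / q0) hB (q0 ^ M) (by positivity)
        (pow_le_one₀ hq0.le hq01) hxB hyB hle
      have hy1 := hint y hyn
      have h1 : |Pr (fun i => (y i : ℝ))| ≤ |Pr x| + |Pr x - Pr (fun i => (y i : ℝ))| := by
        have := abs_sub_abs_le_abs_sub (Pr (fun i => (y i : ℝ))) (Pr x)
        rw [abs_sub_comm] at this
        linarith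
      have h2 : K * (1 / q0) ^ d' * q0 ^ M ≤ 1 / 2 := by
        have e1 : (1 / q0) ^ d' * q0 ^ M = q0 ^ (M - d') := by
          have : q0 ^ M = q0 ^ d' * q0 ^ (M - d') := by rw [← pow_add]; congr 1; omega
          rw [this, ← mul_assoc, ← mul_pow, one_div_mul_cancel hq0.ne', one_pow, one_mul]
        have e2 : q0 ^ (M - d') ≤ q0 ^ 1 := pow_le_pow_of_le_one hq0.le hq01 (by omega)
        calc K * (1 / q0) ^ d' * q0 ^ M = K * q0 ^ (M - d') := by rw [mul_assoc, e1]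
          _ ≤ K * q0 ^ 1 := mul_le_mul_of_nonneg_left e2 hKpos.le
          _ ≤ K * (1 / (2 * K)) := by rw [pow_one]; exact mul_le_mul_of_nonneg_left hq0K hKpos.le
          _ = 1 / 2 := by field_simp
      linarith
  · right; left
    have h1 : (1 / 2 : ℝ) ≤ |x i0 - n| := by
      have h2 : (1 : ℝ) ≤ |(y i0 : ℝ) - n| := by
        have h3 : ((y i0 : ℤ) - n) ≠ 0 := by
          intro h; apply hyn; omega
        have h4 : (1 : ℤ) ≤ |(y i0 : ℤ) - n| := Int.one_le_abs h3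
        exact_mod_cast h4
      have h5 := hxy i0
      have h6 : |(y i0 : ℝ) - n| ≤ |x i0 - y i0| + |x i0 - n| := by
        have : (y i0 : ℝ) - n = -(x i0 - y i0) + (x i0 - n) := by ring
        rw [this]
        exact (abs_add_le _ _).trans (by rw [abs_neg])
      linarith
    have h2 : q i0 - n * q0 = q0 * (x i0 - n) := by
      rw [hx]; field_simp
    rw [h2, mul_pow]
    have h3 : (1 / 4 : ℝ) ≤ (x i0 - n) ^ 2 := by
      rw [← sq_abs]; nlinarith
    have h4 : q0 ^ (2 * M) ≤ q0 ^ 4 := pow_le_pow_of_le_one hq0.le hq01 (by omega)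
    have h5 : q0 ^ 4 ≤ q0 ^ 2 * (1 / 4) := by
      have h7 : q0 ^ 2 ≤ 1 / 4 := by nlinarith
      calc q0 ^ 4 = q0 ^ 2 * q0 ^ 2 := by ring
        _ ≤ q0 ^ 2 * (1 / 4) := mul_le_mul_of_nonneg_left h7 (by positivity)
    have h6 : q0 ^ 2 * (1 / 4) ≤ q0 ^ 2 * (x i0 - n) ^ 2 :=
      mul_le_mul_of_nonneg_left h3 (by positivity)
    linarith

end Pool.Agent.H94.Stab
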