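import Mathlib

set_option autoImplicit false

/-!
Elementary facts on scalar differential equations on an interval, used for the
undecidability of Lyapunov stability of polynomial vector fields.
-/

namespace Pool.Agent.H94.Stab

open Set

/-- A function with zero derivative on an interval is constant. -/
theorem const_of_deriv_zero {f : ℝ → ℝ} {T : ℝ}
    (hf : ∀ t ∈ Icc (0:ℝ) T, HasDerivWithinAt f 0 (Icc 0 T) t) :
    ∀ t ∈ Icc (0:ℝ) T, f t = f 0 := by
  apply constant_of_has_deriv_right_zero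
  · intro t ht
    exact (hf t ht).continuousWithinAt
  · intro t ht
    exact (hf t ⟨ht.1, ht.2.le⟩).mono_of_mem_nhdsWithin (Icc_mem_nhdsGE_of_mem ht)

/-- A function on an interval with nonpositive derivative is antitone. -/
theorem antitone_of_deriv_nonpos {f f' : ℝ → ℝ} {a b : ℝ}
    (hf : ∀ t ∈ Icc a b, HasDerivWithinAt f (f' t) (Icc a b) t)
    (hf' : ∀ t ∈ Icc a b, f' t ≤ 0) : AntitoneOn f (Icc a b) := by
  apply antitoneOn_of_deriv_nonpos (convex_Icc a b)
  · intro t ht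
    exact (hf t ht).continuousWithinAt
  · intro t ht
    rw [interior_Icc] at ht ⊢
    exact ((hf t (Ioo_subset_Icc_self ht)).mono Ioo_subset_Icc_self).differentiableWithinAt
  · intro t ht
    rw [interior_Icc] at ht
    have h := (hf t (Ioo_subset_Icc_self ht)).hasDerivAt (Icc_mem_nhds ht.1 ht.2)
    rw [h.deriv]
    exact hf' t (Ioo_subset_Icc_self ht)

/-- Growth bound for a scalar linear equation. -/
theorem growth {z L : ℝ → ℝ} {T c : ℝ}
    (hz : ∀ t ∈ Icc (0:ℝ) T, HasDerivWithinAt z (z t * L t) (Icc 0 T) t)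
    (hL : ∀ t ∈ Icc (0:ℝ) T, L t ≤ c) {s t : ℝ} (hs : 0 ≤ s) (hst : s ≤ t) (ht : t ≤ T) :
    z t ^ 2 ≤ z s ^ 2 * Real.exp (2 * c * (t - s)) := by
  have hanti : AntitoneOn (fun r => z r ^ 2 * Real.exp (-(2 * c * r))) (Icc 0 T) := by
    apply antitone_of_deriv_nonpos
      (f' := fun r => 2 * z r ^ 2 * (L r - c) * Real.exp (-(2 * c * r)))
    · intro r hr
      have h1 := (hz r hr).pow 2
      have h2 : HasDerivWithinAt (fun r : ℝ => Real.exp (-(2 * c * r)))
          (Real.exp (-(2 * c * r)) * (-(2 * c * 1))) (Icc 0 T) r := by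
        apply HasDerivWithinAt.exp
        exact ((hasDerivWithinAt_id r _).const_mul (2 * c)).neg
      have h3 := h1.mul h2
      refine h3.congr_deriv ?_
      simp only [Nat.cast_ofNat, Nat.add_one_sub_one, pow_one, Pi.pow_apply]
      ring
    · intro r hr
      have : L r - c ≤ 0 := by linarith [hL r hr]
      have h1 : 0 ≤ 2 * z r ^ 2 := by positivity
      have h2 := Real.exp_pos (-(2 * c * r))
      exact mul_nonpos_of_nonpos_of_nonneg (mul_nonpos_of_nonneg_of_nonpos h1 this) h2.le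
  have h := hanti ⟨hs, hst.trans ht⟩ ⟨hs.trans hst, ht⟩ hst
  simp only at h
  have e1 : Real.exp (2 * c * (t - s)) = Real.exp (-(2 * c * s)) * Real.exp (2 * c * t) := by
    rw [← Real.exp_add]; ring_nf
  have e2 : Real.exp (-(2 * c * t)) * Real.exp (2 * c * t) = 1 := by
    rw [← Real.exp_add]; simp
  have hp := Real.exp_pos (2 * c * t)
  calc z t ^ 2 = z t ^ 2 * Real.exp (-(2 * c * t)) * Real.exp (2 * c * t) := by
        rw [mul_assoc, e2, mul_one]
    _ ≤ z s ^ 2 * Real.exp (-(2 * c * s)) * Real.exp (2 * c * t) :=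
        mul_le_mul_of_nonneg_right h hp.le
    _ = z s ^ 2 * Real.exp (2 * c * (t - s)) := by rw [e1]; ring

/-- Uniqueness for a scalar linear equation with zero initial value. -/
theorem zero_of_linear {z L : ℝ → ℝ} {T c : ℝ}
    (hz : ∀ t ∈ Icc (0:ℝ) T, HasDerivWithinAt z (z t * L t) (Icc 0 T) t)
    (hL : ∀ t ∈ Icc (0:ℝ) T, L t ≤ c) (h0 : z 0 = 0) :
    ∀ t ∈ Icc (0:ℝ) T, z t = 0 := by
  intro t ht
  have h := growth hz hL le_rfl ht.1 ht.2
  rw [h0] at h
  have : z t ^ 2 ≤ 0 := by simpa using h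
  exact pow_eq_zero_iff (two_ne_zero) |>.1 (le_antisymm this (sq_nonneg _))

/-- If the sum of the rates at times `t` and `t + τ` is nonpositive, and the rate is at
most `c`, then the solution is bounded by `exp (2 c τ)` times its initial value. -/
theorem bounded_of_pair {z L : ℝ → ℝ} {T c τ : ℝ} (hc : 0 ≤ c) (hτ : 0 ≤ τ)
    (hz : ∀ t ∈ Icc (0:ℝ) T, HasDerivWithinAt z (z t * L t) (Icc 0 T) t)
    (hL : ∀ t ∈ Icc (0:ℝ) T, L t ≤ c)
    (hpair : ∀ t, 0 ≤ t → t + τ ≤ T → L t + L (t + τ) ≤ 0) :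
    ∀ t ∈ Icc (0:ℝ) T, z t ^ 2 ≤ z 0 ^ 2 * Real.exp (4 * c * τ) := by
  intro t ht
  rcases le_total t τ with h | h
  · have h1 := growth hz hL le_rfl ht.1 ht.2
    refine h1.trans (mul_le_mul_of_nonneg_left (Real.exp_le_exp.2 ?_) (sq_nonneg _))
    have : c * t ≤ c * τ := mul_le_mul_of_nonneg_left h hc
    have h3 : 0 ≤ c * τ := mul_nonneg hc hτ
    nlinarith
  · -- the product of the squares at t - τ and t is controlled
    have hanti : AntitoneOn (fun r => z r ^ 2 * z (r + τ) ^ 2) (Icc 0 (T - τ)) := by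
      apply antitone_of_deriv_nonpos
        (f' := fun r => 2 * (z r ^ 2 * z (r + τ) ^ 2) * (L r + L (r + τ)))
      · intro r hr
        have hr1 : r ∈ Icc (0:ℝ) T := ⟨hr.1, by linarith [hr.2]⟩
        have hr2 : r + τ ∈ Icc (0:ℝ) T := ⟨by linarith [hr.1], by linarith [hr.2]⟩
        have h1 := ((hz r hr1).mono (Icc_subset_Icc_right (by linarith : T - τ ≤ T))).pow 2
        have h2 : HasDerivWithinAt (fun r => z (r + τ)) (z (r + τ) * L (r + τ))
            (Icc 0 (T - τ)) r := by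
          have hid : HasDerivWithinAt (fun r : ℝ => r + τ) 1 (Icc 0 (T - τ)) r :=
            (hasDerivWithinAt_id r _).add_const τ
          have hmaps : MapsTo (fun r : ℝ => r + τ) (Icc 0 (T - τ)) (Icc 0 T) := by
            intro x hx
            exact ⟨by linarith [hx.1], by linarith [hx.2]⟩
          have := (hz (r + τ) hr2).comp r hid hmaps
          exact this.congr_deriv (mul_one _)
        have h3 := h1.mul (h2.pow 2)
        refine h3.congr_deriv ?_
        simp only [Nat.cast_ofNat, Nat.add_one_sub_one, pow_one, Pi.pow_apply]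
        ring
      · intro r hr
        have h1 : L r + L (r + τ) ≤ 0 := hpair r hr.1 (by linarith [hr.2])
        have h2 : 0 ≤ 2 * (z r ^ 2 * z (r + τ) ^ 2) := by positivity
        exact mul_nonpos_of_nonneg_of_nonpos h2 h1
    have hT : 0 ≤ T - τ := by linarith [ht.2]
    have h1 := hanti (left_mem_Icc.2 hT) ⟨by linarith, by linarith [ht.2]⟩ (by linarith : (0:ℝ) ≤ t - τ)
    simp only [sub_add_cancel, zero_add] at h1
    have h2 := growth hz hL (by linarith : 0 ≤ t - τ) (by linarith : t - τ ≤ t) ht.2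
    have h3 := growth hz hL le_rfl hτ (h.trans ht.2)
    have e : t - (t - τ) = τ := by ring
    rw [e] at h2
    rw [sub_zero] at h3
    set E := Real.exp (2 * c * τ) with hE
    have hE4 : Real.exp (4 * c * τ) = E * E := by
      rw [hE, ← Real.exp_add]; ring_nf
    rw [hE4]
    have hEpos : 0 < E := Real.exp_pos _
    -- z t ^ 4 ≤ z t^2 * z (t-τ)^2 * E ≤ z 0^2 z τ^2 E ≤ z 0^4 E^2
    have h4 : (z t ^ 2) * (z t ^ 2) ≤ (z 0 ^ 2 * E) * (z 0 ^ 2 * E) := by
      calc (z t ^ 2) * (z t ^ 2) ≤ (z (t - τ) ^ 2 * E) * (z t ^ 2) :=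
            mul_le_mul_of_nonneg_right h2 (sq_nonneg _)
        _ = (z (t - τ) ^ 2 * z t ^ 2) * E := by ring
        _ ≤ (z 0 ^ 2 * z τ ^ 2) * E := mul_le_mul_of_nonneg_right h1 hEpos.le
        _ ≤ (z 0 ^ 2 * (z 0 ^ 2 * E)) * E := by
            apply mul_le_mul_of_nonneg_right _ hEpos.le
            exact mul_le_mul_of_nonneg_left h3 (sq_nonneg _)
        _ = (z 0 ^ 2 * E) * (z 0 ^ 2 * E) := by ring
    have h5 : z t ^ 2 ≤ z 0 ^ 2 * E := by
      have ha : 0 ≤ z t ^ 2 := sq_nonneg _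
      have hb : 0 ≤ z 0 ^ 2 * E := by positivity
      exact (mul_self_le_mul_self_iff ha hb).2 h4
    have hE1 : 1 ≤ E := by
      rw [hE]; exact Real.one_le_exp (by positivity)
    calc z t ^ 2 ≤ z 0 ^ 2 * E := h5
      _ ≤ z 0 ^ 2 * (E * E) := by
        apply mul_le_mul_of_nonneg_left _ (sq_nonneg _)
        nlinarith

/-- Solution of a planar rotation. -/
theorem rot {u v : ℝ → ℝ} {ω T : ℝ}
    (hu : ∀ t ∈ Icc (0:ℝ) T, HasDerivWithinAt u (-(ω * v t)) (Icc 0 T) t)
    (hv : ∀ t ∈ Icc (0:ℝ) T, HasDerivWithinAt v (ω * u t) (Icc 0 T) t) :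
    ∀ t ∈ Icc (0:ℝ) T, u t = u 0 * Real.cos (ω * t) - v 0 * Real.sin (ω * t) ∧
      v t = u 0 * Real.sin (ω * t) + v 0 * Real.cos (ω * t) := by
  have hcos : ∀ t, HasDerivWithinAt (fun t : ℝ => Real.cos (ω * t)) (-(Real.sin (ω * t)) * ω)
      (Icc 0 T) t := by
    intro t
    have := ((hasDerivAt_id t).const_mul ω).cos.hasDerivWithinAt (s := Icc 0 T)
    simpa using this
  have hsin : ∀ t, HasDerivWithinAt (fun t : ℝ => Real.sin (ω * t)) ((Real.cos (ω * t)) * ω)
      (Icc 0 T) t := by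
    intro t
    have := ((hasDerivAt_id t).const_mul ω).sin.hasDerivWithinAt (s := Icc 0 T)
    simpa using this
  have hA := const_of_deriv_zero (f := fun t => u t * Real.cos (ω * t) + v t * Real.sin (ω * t))
    (T := T) (by
      intro t ht
      have := ((hu t ht).mul (hcos t)).add ((hv t ht).mul (hsin t))
      refine this.congr_deriv ?_
      ring)
  have hB := const_of_deriv_zero (f := fun t => v t * Real.cos (ω * t) - u t * Real.sin (ω * t))
    (T := T) (by
      intro t ht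
      have := ((hv t ht).mul (hcos t)).sub ((hu t ht).mul (hsin t))
      refine this.congr_deriv ?_
      ring)
  intro t ht
  have h1 := hA t ht
  have h2 := hB t ht
  simp only [mul_zero, Real.cos_zero, Real.sin_zero, mul_one, add_zero, sub_zero] at h1 h2
  have h3 := Real.sin_sq_add_cos_sq (ω * t)
  constructor
  · rw [← h1, ← h2]
    linear_combination (- u t) * h3
  · rw [← h1, ← h2]
    linear_combination (- v t) * h3

/-- In a planar rotation, the value after time `τ` in terms of the present values. -/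
theorem rot_shift {u v : ℝ → ℝ} {ω T : ℝ}
    (hu : ∀ t ∈ Icc (0:ℝ) T, HasDerivWithinAt u (-(ω * v t)) (Icc 0 T) t)
    (hv : ∀ t ∈ Icc (0:ℝ) T, HasDerivWithinAt v (ω * u t) (Icc 0 T) t)
    {t τ : ℝ} (ht : 0 ≤ t) (hτ : 0 ≤ τ) (h : t + τ ≤ T) :
    u (t + τ) = u t * Real.cos (ω * τ) - v t * Real.sin (ω * τ) ∧
      v (t + τ) = u t * Real.sin (ω * τ) + v t * Real.cos (ω * τ) := by
  have h1 := rot hu hv t ⟨ht, by linarith⟩
  have h2 := rot hu hv (t + τ) ⟨by linarith, h⟩
  have e : ω * (t + τ) = ω * t + ω * τ := by ring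
  rw [e, Real.cos_add, Real.sin_add] at h2
  rw [h1.1, h1.2, h2.1, h2.2]
  constructor <;> ring

/-- Norm conservation in a planar rotation with variable speed. -/
theorem sq_const {u v w : ℝ → ℝ} {T : ℝ}
    (hu : ∀ t ∈ Icc (0:ℝ) T, HasDerivWithinAt u (-(w t * v t)) (Icc 0 T) t)
    (hv : ∀ t ∈ Icc (0:ℝ) T, HasDerivWithinAt v (w t * u t) (Icc 0 T) t) :
    ∀ t ∈ Icc (0:ℝ) T, u t ^ 2 + v t ^ 2 = u 0 ^ 2 + v 0 ^ 2 := by
  apply const_of_deriv_zero (f := fun t => u t ^ 2 + v t ^ 2)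
  intro t ht
  have := ((hu t ht).pow 2).add ((hv t ht).pow 2)
  refine this.congr_deriv ?_
  simp only [Nat.cast_ofNat, Nat.add_one_sub_one, pow_one]
  ring

/-- The comb: if `(a, b)` rotates uniformly with angular speed `ω ≠ 0` and
`C' = - S C^2 b`, `S' = C^3 b`, then `C^2` repeats whenever `a` repeats. -/
theorem comb {a b C S : ℝ → ℝ} {ω T : ℝ} (hω : ω ≠ 0)
    (ha : ∀ t ∈ Icc (0:ℝ) T, HasDerivWithinAt a (-(ω * b t)) (Icc 0 T) t)
    (hb : ∀ t ∈ Icc (0:ℝ) T, HasDerivWithinAt b (ω * a t) (Icc 0 T) t)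
    (hC : ∀ t ∈ Icc (0:ℝ) T, HasDerivWithinAt C (-(C t ^ 2 * b t * S t)) (Icc 0 T) t)
    (hS : ∀ t ∈ Icc (0:ℝ) T, HasDerivWithinAt S (C t ^ 2 * b t * C t) (Icc 0 T) t)
    {s t : ℝ} (hs : s ∈ Icc (0:ℝ) T) (ht : t ∈ Icc (0:ℝ) T) (hst : a s = a t) :
    C s ^ 2 = C t ^ 2 := by
  have hρ := sq_const (w := fun t => C t ^ 2 * b t) hC hS
  have hR := sq_const (w := fun _ => ω) ha hb
  set ρ := C 0 ^ 2 + S 0 ^ 2 with hρdef
  set R := a 0 ^ 2 + b 0 ^ 2 with hRdef
  -- bound for the rate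
  have hbd : ∀ t ∈ Icc (0:ℝ) T, -(C t * S t * b t) ≤ ρ + R + ρ ^ 2 := by
    intro t ht
    have h1 := hρ t ht
    have h2 := hR t ht
    nlinarith [sq_nonneg (C t * S t + b t), sq_nonneg (C t), sq_nonneg (S t), sq_nonneg (a t),
      sq_nonneg (b t), sq_nonneg (C t ^ 2 - S t ^ 2), mul_nonneg (sq_nonneg (C t)) (sq_nonneg (S t)),
      sq_nonneg (C t * S t)]
  -- X and C satisfy the same linear equation
  set β := ρ / ω with hβ
  set X : ℝ → ℝ := fun t => S t + β * a t * C t with hX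
  have hXd : ∀ t ∈ Icc (0:ℝ) T, HasDerivWithinAt X (X t * (-(C t * S t * b t))) (Icc 0 T) t := by
    intro t ht
    have h1 := (hS t ht).add (((ha t ht).const_mul β).mul (hC t ht))
    refine h1.congr_deriv ?_
    have h2 := hρ t ht
    simp only [hX]
    have h3 : β * ω = ρ := by rw [hβ]; field_simp
    have h4 : C t ^ 2 + S t ^ 2 = β * ω := by rw [h3, h2]
    linear_combination (C t * b t) * h4
  have hCd : ∀ t ∈ Icc (0:ℝ) T, HasDerivWithinAt C (C t * (-(C t * S t * b t))) (Icc 0 T) t := by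
    intro t ht
    exact (hC t ht).congr_deriv (by ring)
  have hD : ∀ t ∈ Icc (0:ℝ) T, X t * C 0 - C t * X 0 = 0 := by
    apply zero_of_linear (L := fun t => -(C t * S t * b t)) _ hbd
    · ring
    · intro t ht
      have := ((hXd t ht).mul_const (C 0)).sub ((hCd t ht).mul_const (X 0))
      exact this.congr_deriv (by ring)
  by_cases h0 : C 0 = 0
  · have := zero_of_linear (L := fun t => -(C t * S t * b t)) hCd hbd h0
    rw [this s hs, this t ht]
  · have key : ∀ t ∈ Icc (0:ℝ) T, C t ^ 2 * (1 + (X 0 / C 0 - β * a t) ^ 2) = ρ := by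
      intro t ht
      have h1 := hD t ht
      have h2 : S t = (X 0 / C 0 - β * a t) * C t := by
        have : X t = X 0 / C 0 * C t := by field_simp; linarith
        simp only [hX] at this ⊢
        linear_combination this
      have h3 := hρ t ht
      rw [h2] at h3
      linear_combination h3
    have h1 := key s hs
    have h2 := key t ht
    rw [hst] at h1
    have h3 : 0 < 1 + (X 0 / C 0 - β * a t) ^ 2 := by positivity
    have h4 : (C s ^ 2 - C t ^ 2) * (1 + (X 0 / C 0 - β * a t) ^ 2) = 0 := by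
      linear_combination h1 - h2
    rcases mul_eq_zero.1 h4 with h | h
    · linarith
    · exact absurd h h3.ne'

/-- The elementary quadratic inequality behind the resonance test. -/
theorem pair_ge (u v c s : ℝ) (hcs : s ^ 2 + c ^ 2 = 1) :
    (u ^ 2 + v ^ 2) * (1 - |c|) ≤ v ^ 2 + (u * s + v * c) ^ 2 := by
  have hc : |c| ≤ 1 := by
    rw [abs_le]; constructor <;> nlinarith [sq_nonneg s, sq_nonneg c]
  have hc0 : 0 ≤ |c| := abs_nonneg c
  have hs : s ^ 2 = (1 - |c|) * (1 + |c|) := by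
    have : |c| ^ 2 = c ^ 2 := sq_abs c
    nlinarith
  -- difference = |c| * ((1+|c|) v^2 + (1-|c|) u^2) + 2 c s u v
  have hdiff : v ^ 2 + (u * s + v * c) ^ 2 - (u ^ 2 + v ^ 2) * (1 - |c|)
      = |c| * ((1 + |c|) * v ^ 2 + (1 - |c|) * u ^ 2) + 2 * c * s * u * v := by
    have h2 : |c| ^ 2 = c ^ 2 := sq_abs c
    linear_combination (u ^ 2) * hs + (-(v ^ 2)) * h2 
  have hle : -(|c| * ((1 + |c|) * v ^ 2 + (1 - |c|) * u ^ 2)) ≤ 2 * c * s * u * v := by
    have h1 : |2 * s * u * v| ≤ (1 + |c|) * v ^ 2 + (1 - |c|) * u ^ 2 := by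
      set A := Real.sqrt (1 + |c|) with hA
      set B := Real.sqrt (1 - |c|) with hB
      have hA2 : A ^ 2 = 1 + |c| := Real.sq_sqrt (by linarith)
      have hB2 : B ^ 2 = 1 - |c| := Real.sq_sqrt (by linarith)
      have hs2 : |s| = A * B := by
        have h3 : s ^ 2 = (A * B) ^ 2 := by rw [mul_pow, hA2, hB2, hs]; ring
        have h4 : 0 ≤ A * B := by positivity
        rw [← abs_of_nonneg h4]
        exact sq_eq_sq_iff_abs_eq_abs _ _ |>.1 h3
      rw [← hA2, ← hB2, abs_mul, abs_mul, abs_mul, hs2]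
      have : |(2:ℝ)| = 2 := by norm_num
      rw [this]
      nlinarith [sq_nonneg (A * |v| - B * |u|), sq_abs v, sq_abs u]
    have h2 : |2 * c * s * u * v| = |c| * |2 * s * u * v| := by
      rw [← abs_mul]; congr 1; ring
    have h3 : |2 * c * s * u * v| ≤ |c| * ((1 + |c|) * v ^ 2 + (1 - |c|) * u ^ 2) := by
      rw [h2]; exact mul_le_mul_of_nonneg_left h1 hc0
    linarith [neg_abs_le (2 * c * s * u * v)]
  linarith

end Pool.Agent.H94.Stab
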