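import Pool.Agent.H94.Stab.Stable

set_option autoImplicit false

/-!
The unstable direction: if the Diophantine equation has a solution, there are solutions of the
differential equation starting arbitrarily close to the origin and leaving the unit ball.
-/

namespace Pool.Agent.H94.Stab

open Set

theorem abs_sin_nat_mul_le (m : ℕ) (x : ℝ) : |Real.sin (m * x)| ≤ m * |Real.sin x| := by
  induction m with
  | zero => simp
  | succ m ih =>
    have e : ((m + 1 : ℕ) : ℝ) * x = m * x + x := by push_cast; ring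
    rw [e, Real.sin_add]
    have h1 : |Real.sin (m * x) * Real.cos x| ≤ |Real.sin (m * x)| := by
      rw [abs_mul]
      exact mul_le_of_le_one_right (abs_nonneg _) (Real.abs_cos_le_one _)
    have h2 : |Real.cos (m * x) * Real.sin x| ≤ |Real.sin x| := by
      rw [abs_mul]
      exact mul_le_of_le_one_left (abs_nonneg _) (Real.abs_cos_le_one _)
    calc |Real.sin (m * x) * Real.cos x + Real.cos (m * x) * Real.sin x|
        ≤ |Real.sin (m * x) * Real.cos x| + |Real.cos (m * x) * Real.sin x| := abs_add_le _ _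
      _ ≤ m * |Real.sin x| + |Real.sin x| := by linarith
      _ = ((m + 1 : ℕ) : ℝ) * |Real.sin x| := by push_cast; ring

/-- The positivity of the mean growth rate. -/
theorem mean_pos {κ : Type*} [Fintype κ] (m : κ → ℕ) {s E w Ω : ℝ} (hE : 0 < E)
    (hw : 0 < w) (hw1 : w ≤ 1) (hΩ : 0 < Ω)
    (hwE : w * (∑ i, s ^ 2 * (m i : ℝ) ^ 2) * 5 * Real.pi < 4 * E) :
    0 < ∫ t in (0:ℝ)..(Real.pi / Ω),
      (1 / (1 + (2 * (1 / w ^ 2) * Real.sin (Ω * t) ^ 2) ^ 2)) *
        (E - ∑ i, (s * Real.sin (m i * (Ω * t))) ^ 2) := by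
  set A := ∑ i, s ^ 2 * (m i : ℝ) ^ 2 with hA
  have hA0 : 0 ≤ A := Finset.sum_nonneg (fun i _ => by positivity)
  set D : ℝ → ℝ := fun t => 1 + (2 * (1 / w ^ 2) * Real.sin (Ω * t) ^ 2) ^ 2 with hD
  have hD1 : ∀ t, 1 ≤ D t := fun t => by simp only [hD]; nlinarith [sq_nonneg (2 * (1 / w ^ 2) * Real.sin (Ω * t) ^ 2)]
  have hDpos : ∀ t, 0 < D t := fun t => by linarith [hD1 t]
  have hDcont : Continuous D := by
    simp only [hD]; fun_prop
  have hpiΩ : 0 < Real.pi / Ω := div_pos Real.pi_pos hΩ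
  have hpt : ∀ t, E * (1 / D t) - A * w ^ 2 / 4 ≤
      (1 / D t) * (E - ∑ i, (s * Real.sin (m i * (Ω * t))) ^ 2) := by
    intro t
    have h1 : ∑ i, (s * Real.sin (m i * (Ω * t))) ^ 2 ≤ A * Real.sin (Ω * t) ^ 2 := by
      rw [hA, Finset.sum_mul]
      apply Finset.sum_le_sum
      intro i _
      have h2 := abs_sin_nat_mul_le (m i) (Ω * t)
      have h3 : Real.sin (m i * (Ω * t)) ^ 2 ≤ (m i : ℝ) ^ 2 * Real.sin (Ω * t) ^ 2 := by
        rw [← sq_abs (Real.sin (m i * (Ω * t))), ← sq_abs (Real.sin (Ω * t)), ← mul_pow]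
        exact pow_le_pow_left₀ (abs_nonneg _) h2 2
      rw [mul_pow]
      calc s ^ 2 * Real.sin (m i * (Ω * t)) ^ 2
          ≤ s ^ 2 * ((m i : ℝ) ^ 2 * Real.sin (Ω * t) ^ 2) :=
            mul_le_mul_of_nonneg_left h3 (sq_nonneg _)
        _ = s ^ 2 * (m i : ℝ) ^ 2 * Real.sin (Ω * t) ^ 2 := by ring
    have h4 : (1 / D t) * Real.sin (Ω * t) ^ 2 ≤ w ^ 2 / 4 := by
      rw [one_div, inv_mul_le_iff₀ (hDpos t)]
      have h5 : 2 * (2 * (1 / w ^ 2) * Real.sin (Ω * t) ^ 2) ≤ D t := by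
        simp only [hD]
        nlinarith [sq_nonneg (2 * (1 / w ^ 2) * Real.sin (Ω * t) ^ 2 - 1)]
      have h6 : Real.sin (Ω * t) ^ 2 =
          2 * (2 * (1 / w ^ 2) * Real.sin (Ω * t) ^ 2) * (w ^ 2 / 4) := by
        field_simp
        norm_num
      calc Real.sin (Ω * t) ^ 2 = 2 * (2 * (1 / w ^ 2) * Real.sin (Ω * t) ^ 2) * (w ^ 2 / 4) := h6
        _ ≤ D t * (w ^ 2 / 4) := mul_le_mul_of_nonneg_right h5 (by positivity)
    have h7 : 0 ≤ 1 / D t := by have := hDpos t; positivity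
    have h8 : (1 / D t) * (∑ i, (s * Real.sin (m i * (Ω * t))) ^ 2) ≤ A * (w ^ 2 / 4) := by
      calc (1 / D t) * (∑ i, (s * Real.sin (m i * (Ω * t))) ^ 2)
          ≤ (1 / D t) * (A * Real.sin (Ω * t) ^ 2) := mul_le_mul_of_nonneg_left h1 h7
        _ = A * ((1 / D t) * Real.sin (Ω * t) ^ 2) := by ring
        _ ≤ A * (w ^ 2 / 4) := mul_le_mul_of_nonneg_left h4 hA0
    rw [mul_sub]
    linarith
  have hcont1 : Continuous (fun t => 1 / D t) :=
    continuous_const.div hDcont (fun t => (hDpos t).ne')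
  have hcont2 : Continuous (fun t => (1 / D t) * (E - ∑ i, (s * Real.sin (m i * (Ω * t))) ^ 2)) := by
    apply hcont1.mul
    fun_prop
  have hI1 : (w / Ω) * (E * (1 / 5)) ≤ ∫ t in (0:ℝ)..(Real.pi / Ω), E * (1 / D t) := by
    have hwΩ : w / Ω ≤ Real.pi / Ω := by
      gcongr
      linarith [Real.pi_gt_three]
    have hwΩ0 : 0 ≤ w / Ω := by positivity
    have hint : ∀ x y : ℝ, IntervalIntegrable (fun t => E * (1 / D t)) MeasureTheory.volume x y :=
      fun x y => (hcont1.const_mul E |>.intervalIntegrable x y)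
    rw [← intervalIntegral.integral_add_adjacent_intervals (hint 0 (w / Ω)) (hint (w / Ω) (Real.pi / Ω))]
    have hsecond : 0 ≤ ∫ t in (w / Ω)..(Real.pi / Ω), E * (1 / D t) := by
      apply intervalIntegral.integral_nonneg hwΩ
      intro t _
      have := hDpos t
      positivity
    have hfirst : (w / Ω) * (E * (1 / 5)) ≤ ∫ t in (0:ℝ)..(w / Ω), E * (1 / D t) := by
      have hc : (w / Ω) * (E * (1 / 5)) = ∫ _t in (0:ℝ)..(w / Ω), E * (1 / 5) := by
        rw [intervalIntegral.integral_const]; simp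
      rw [hc]
      apply intervalIntegral.integral_mono_on hwΩ0 (by simp) (hint _ _)
      intro t ht
      apply mul_le_mul_of_nonneg_left _ hE.le
      apply one_div_le_one_div_of_le (hDpos t)
      have h1 : 0 ≤ Ω * t := mul_nonneg hΩ.le ht.1
      have h2 : Ω * t ≤ w := by
        have := ht.2
        rw [le_div_iff₀ hΩ] at this
        linarith
      have h3 : |Real.sin (Ω * t)| ≤ w := by
        have h4 : |Real.sin (Ω * t)| ≤ |Ω * t| := Real.abs_sin_le_abs
        calc |Real.sin (Ω * t)| ≤ |Ω * t| := h4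
          _ = Ω * t := abs_of_nonneg h1
          _ ≤ w := h2
      have h5 : Real.sin (Ω * t) ^ 2 ≤ w ^ 2 := by
        rw [← sq_abs]; exact pow_le_pow_left₀ (abs_nonneg _) h3 2
      have h6 : 2 * (1 / w ^ 2) * Real.sin (Ω * t) ^ 2 ≤ 2 := by
        calc 2 * (1 / w ^ 2) * Real.sin (Ω * t) ^ 2 ≤ 2 * (1 / w ^ 2) * w ^ 2 :=
              mul_le_mul_of_nonneg_left h5 (by positivity)
          _ = 2 := by field_simp
      have h7 : 0 ≤ 2 * (1 / w ^ 2) * Real.sin (Ω * t) ^ 2 := by positivity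
      simp only [hD]
      nlinarith
    linarith
  have hI2 : ∫ t in (0:ℝ)..(Real.pi / Ω), (E * (1 / D t) - A * w ^ 2 / 4) =
      (∫ t in (0:ℝ)..(Real.pi / Ω), E * (1 / D t)) - (Real.pi / Ω) * (A * w ^ 2 / 4) := by
    rw [intervalIntegral.integral_sub]
    · rw [intervalIntegral.integral_const]; simp
    · exact (hcont1.const_mul E |>.intervalIntegrable _ _)
    · simp
  have hI3 : ∫ t in (0:ℝ)..(Real.pi / Ω), (E * (1 / D t) - A * w ^ 2 / 4) ≤
      ∫ t in (0:ℝ)..(Real.pi / Ω), (1 / D t) * (E - ∑ i, (s * Real.sin (m i * (Ω * t))) ^ 2) := by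
    apply intervalIntegral.integral_mono_on hpiΩ.le
    · exact ((hcont1.const_mul E).sub continuous_const).intervalIntegrable _ _
    · exact hcont2.intervalIntegrable _ _
    · intro t _
      exact hpt t
  have hfin : 0 < (w / Ω) * (E * (1 / 5)) - (Real.pi / Ω) * (A * w ^ 2 / 4) := by
    have e : (w / Ω) * (E * (1 / 5)) - (Real.pi / Ω) * (A * w ^ 2 / 4) =
        (w / (20 * Ω)) * (4 * E - w * A * 5 * Real.pi) := by
      field_simp
      ring
    rw [e]
    apply mul_pos (by positivity)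
    linarith
  linarith

theorem exists_small {X Y Z δ : ℝ} (hX : 0 ≤ X) (hY : 0 < Y) (hZ : 0 ≤ Z) (hδ : 0 < δ) :
    ∃ w : ℝ, 0 < w ∧ w ≤ 1 ∧ w * X < Y ∧ w ^ 2 * Z < δ := by
  refine ⟨min 1 (min (Y / (X + 1)) (δ / (Z + 1))), ?_, min_le_left _ _, ?_, ?_⟩
  · apply lt_min one_pos (lt_min _ _) <;> positivity
  · set w := min 1 (min (Y / (X + 1)) (δ / (Z + 1))) with hw
    have h0 : 0 < w := by apply lt_min one_pos (lt_min _ _) <;> positivity
    have h1 : w ≤ Y / (X + 1) := (min_le_right _ _).trans (min_le_left _ _)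
    rw [le_div_iff₀ (by positivity)] at h1
    nlinarith
  · set w := min 1 (min (Y / (X + 1)) (δ / (Z + 1))) with hw
    have h0 : 0 < w := by apply lt_min one_pos (lt_min _ _) <;> positivity
    have h1 : w ≤ δ / (Z + 1) := (min_le_right _ _).trans (min_le_right _ _)
    have h2 : w ≤ 1 := min_le_left _ _
    rw [le_div_iff₀ (by positivity)] at h1
    have h3 : w ^ 2 * Z ≤ w * Z := by
      apply mul_le_mul_of_nonneg_right _ hZ
      nlinarith
    nlinarith

theorem sin_nat_pi_sq (m : ℕ) (x : ℝ) : Real.sin (m * (x + Real.pi)) ^ 2 = Real.sin (m * x) ^ 2 := by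
  have e : (m : ℝ) * (x + Real.pi) = m * x + m * Real.pi := by ring
  rw [e, Real.sin_add_nat_mul_pi, mul_pow, ← pow_mul, mul_comm m 2, pow_mul]
  simp

/-- Derivative of the inverse square root. -/
theorem hasDerivAt_W {y y' : ℝ → ℝ} {t : ℝ} (hy : HasDerivAt y (y' t) t) :
    HasDerivAt (fun t => (Real.sqrt (1 + y t ^ 2))⁻¹)
      (-(y t * y' t) * ((Real.sqrt (1 + y t ^ 2))⁻¹) ^ 3) t := by
  have hD : 0 < 1 + y t ^ 2 := by positivity
  have h1 : HasDerivAt (fun t => 1 + y t ^ 2) (2 * y t * y' t) t := by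
    have := (hy.pow 2).const_add 1
    refine this.congr_deriv ?_
    simp
  have h2 := (h1.sqrt hD.ne').inv (Real.sqrt_ne_zero'.2 hD)
  refine h2.congr_deriv ?_
  have h3 : Real.sqrt (1 + y t ^ 2) ≠ 0 := Real.sqrt_ne_zero'.2 hD
  field_simp

/-- The unstable direction. -/
theorem unstable {κ : Type*} [Fintype κ] (H : ℝ → (κ → ℝ) → ℝ) (M : ℕ) (i0 : κ) (m : κ → ℕ)
    (hH : ∀ q0 : ℝ, 0 < q0 → H q0 (fun i => m i * q0) = 0) {δ : ℝ} (hδ : 0 < δ) :
    ∃ T : ℝ, 0 ≤ T ∧ ∃ (g p0 a b C S z : ℝ → ℝ) (p u v : κ → ℝ → ℝ),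
      Sol H M i0 (m i0) T g p0 a b C S z p u v ∧
      |g 0| < δ ∧ |p0 0| < δ ∧ |a 0| < δ ∧ |b 0| < δ ∧ |C 0| < δ ∧ |S 0| < δ ∧ |z 0| < δ ∧
      (∀ i, |p i 0| < δ) ∧ (∀ i, |u i 0| < δ) ∧ (∀ i, |v i 0| < δ) ∧ 1 ≤ |z T| := by
  classical
  -- parameters
  obtain ⟨s, hs0, hsδ, hs1⟩ : ∃ s : ℝ, 0 < s ∧ s < δ ∧ s < 1 := by
    refine ⟨min δ 1 / 2, by positivity, ?_, ?_⟩
    · have := min_le_left δ 1; linarith
    · have := min_le_right δ 1; linarith
  set sm : ℝ := ∑ i, (m i : ℝ) with hsm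
  have hsm0 : 0 ≤ sm := Finset.sum_nonneg (fun i _ => by positivity)
  set r : ℝ := s / (1 + sm) with hr
  have hr0 : 0 < r := by positivity
  have hrs : r ≤ s := by
    rw [hr, div_le_iff₀ (by positivity)]; nlinarith
  have hmr : ∀ i, (m i : ℝ) * r ≤ s := by
    intro i
    have h1 : (m i : ℝ) ≤ sm := Finset.single_le_sum (f := fun i => (m i : ℝ))
      (fun j _ => by positivity) (Finset.mem_univ i)
    rw [hr, mul_div_assoc', div_le_iff₀ (by positivity)]
    nlinarith
  set q0 : ℝ := r ^ 2 with hq0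
  have hq00 : 0 < q0 := by positivity
  set E : ℝ := q0 ^ (2 * M) * ∏ _i : κ, s ^ 2 with hE
  have hE0 : 0 < E := by
    rw [hE]
    exact mul_pos (by positivity) (Finset.prod_pos (fun i _ => by positivity))
  set A : ℝ := ∑ i, s ^ 2 * (m i : ℝ) ^ 2 with hA
  have hA0 : 0 ≤ A := Finset.sum_nonneg (fun i _ => by positivity)
  obtain ⟨w, hw0, hw1, hwE, hwδ⟩ := exists_small (X := A * 5 * Real.pi) (Y := 4 * E)
    (Z := s ^ 3 / (2 * q0)) (δ := δ ^ 2) (by positivity) (by positivity) (by positivity)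
    (by positivity)
  set G : ℝ := w ^ 2 * (s ^ 3 / (2 * q0)) with hG
  have hG0 : 0 < G := by positivity
  set g0 : ℝ := Real.sqrt G with hg0
  have hg0sq : g0 ^ 2 = G := Real.sq_sqrt hG0.le
  have hg0δ : g0 < δ := by
    rw [hg0, Real.sqrt_lt' hδ]; exact hwδ
  have hg00 : 0 ≤ g0 := Real.sqrt_nonneg _
  set Ω : ℝ := G * q0 with hΩ
  have hΩ0 : 0 < Ω := by positivity
  -- the comb variable
  set y : ℝ → ℝ := fun t => (1 / w ^ 2) * (1 - Real.cos (2 * Ω * t)) with hy
  set bb : ℝ → ℝ := fun t => s * Real.sin (2 * Ω * t) with hbb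
  have hcos : ∀ c t : ℝ, HasDerivAt (fun t => Real.cos (c * t)) (-(Real.sin (c * t)) * c) t := by
    intro c t
    have := ((hasDerivAt_id t).const_mul c).cos
    simpa using this
  have hsin : ∀ c t : ℝ, HasDerivAt (fun t => Real.sin (c * t)) (Real.cos (c * t) * c) t := by
    intro c t
    have := ((hasDerivAt_id t).const_mul c).sin
    simpa using this
  have hyd : ∀ t, HasDerivAt y (s ^ 2 * bb t) t := by
    intro t
    have h1 := ((hcos (2 * Ω) t).const_sub 1).const_mul (1 / w ^ 2)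
    refine h1.congr_deriv ?_
    simp only [hbb, hΩ, hG]
    field_simp
  set W : ℝ → ℝ := fun t => (Real.sqrt (1 + y t ^ 2))⁻¹ with hW
  have hWd : ∀ t, HasDerivAt W (-(y t * (s ^ 2 * bb t)) * W t ^ 3) t := by
    intro t
    exact hasDerivAt_W (y' := fun t => s ^ 2 * bb t) (hyd t)
  have hW2 : ∀ t, W t ^ 2 * (1 + y t ^ 2) = 1 := by
    intro t
    have hD : 0 < 1 + y t ^ 2 := by positivity
    simp only [hW]
    rw [inv_pow, Real.sq_sqrt hD.le]
    field_simp
  have hWcont : Continuous W := continuous_iff_continuousAt.2 (fun t => (hWd t).continuousAt)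
  set pp : κ → ℝ := fun i => Real.sqrt (m i) * r with hpp
  have hpp2 : ∀ i, pp i ^ 2 = m i * q0 := by
    intro i
    simp only [hpp, hq0]
    rw [mul_pow, Real.sq_sqrt (by positivity)]
  set L : ℝ → ℝ := fun t => g0 ^ 2 * (s * W t) ^ 2 *
    ((r ^ 2) ^ (2 * M) * ∏ i, ((s * Real.cos (G * pp i ^ 2 * t)) ^ 2 +
      (s * Real.sin (G * pp i ^ 2 * t)) ^ 2) - ∑ i, (s * Real.sin (G * pp i ^ 2 * t)) ^ 2
      - H (r ^ 2) (fun i => pp i ^ 2) ^ 2 - (pp i0 ^ 2 - m i0 * r ^ 2) ^ 2) with hL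
  have hLcont : Continuous L := by
    simp only [hL]
    fun_prop
  -- nicer form of the rate
  have hLform : ∀ t, L t = (G * s ^ 2) * ((1 / (1 + (2 * (1 / w ^ 2) * Real.sin (Ω * t) ^ 2) ^ 2)) *
        (E - ∑ i, (s * Real.sin (m i * (Ω * t))) ^ 2)) := by
    intro t
    simp only [hL]
    have e1 : H (r ^ 2) (fun i => pp i ^ 2) = 0 := by
      have : (fun i => pp i ^ 2) = fun i => (m i : ℝ) * q0 := by funext i; exact hpp2 i
      rw [this]; exact hH q0 hq00
    have e2 : pp i0 ^ 2 - m i0 * r ^ 2 = 0 := by rw [hpp2 i0]; ring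
    have e3 : ∀ i, (s * Real.cos (G * pp i ^ 2 * t)) ^ 2 +
      (s * Real.sin (G * pp i ^ 2 * t)) ^ 2 = s ^ 2 := by
      intro i
      have := Real.sin_sq_add_cos_sq (G * pp i ^ 2 * t)
      linear_combination (s ^ 2) * this
    have e4 : ∀ i, G * pp i ^ 2 * t = m i * (Ω * t) := by
      intro i; rw [hpp2 i, hΩ]; ring
    have e5 : y t = 2 * (1 / w ^ 2) * Real.sin (Ω * t) ^ 2 := by
      simp only [hy]
      have : 2 * Ω * t = 2 * (Ω * t) := by ring
      rw [this, Real.cos_two_mul, Real.cos_sq']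
      ring
    have e6 : W t ^ 2 = 1 / (1 + (2 * (1 / w ^ 2) * Real.sin (Ω * t) ^ 2) ^ 2) := by
      rw [← e5]
      have hD : 0 < 1 + y t ^ 2 := by positivity
      rw [eq_div_iff hD.ne']; exact hW2 t
    simp only [e1, e2, e3]
    simp only [e4]
    rw [mul_pow, e6, hg0sq]
    rw [hE, hq0]
    ring
  have hper : Function.Periodic L (Real.pi / Ω) := by
    intro t
    rw [hLform, hLform]
    have e1 : Ω * (t + Real.pi / Ω) = Ω * t + Real.pi := by field_simp
    rw [e1]
    have e2 : Real.sin (Ω * t + Real.pi) ^ 2 = Real.sin (Ω * t) ^ 2 := by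
      rw [Real.sin_add_pi]; ring
    have e3 : ∀ i, (s * Real.sin (m i * (Ω * t + Real.pi))) ^ 2 =
        (s * Real.sin (m i * (Ω * t))) ^ 2 := by
      intro i
      rw [mul_pow, sin_nat_pi_sq, mul_pow]
    simp only [e2, e3]
  have hJ : 0 < ∫ t in (0:ℝ)..(Real.pi / Ω), L t := by
    have h1 : ∫ t in (0:ℝ)..(Real.pi / Ω), L t = (G * s ^ 2) * ∫ t in (0:ℝ)..(Real.pi / Ω),
      ((1 / (1 + (2 * (1 / w ^ 2) * Real.sin (Ω * t) ^ 2) ^ 2)) *
        (E - ∑ i, (s * Real.sin (m i * (Ω * t))) ^ 2)) := by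
      rw [← intervalIntegral.integral_const_mul]
      congr 1
      funext t
      exact hLform t
    rw [h1]
    apply mul_pos (by positivity)
    apply mean_pos m hE0 hw0 hw1 hΩ0
    calc w * (∑ i, s ^ 2 * (m i : ℝ) ^ 2) * 5 * Real.pi = w * (A * 5 * Real.pi) := by
          rw [hA]; ring
      _ < 4 * E := hwE
  set J := ∫ t in (0:ℝ)..(Real.pi / Ω), L t with hJdef
  have hint : ∀ x y : ℝ, IntervalIntegrable L MeasureTheory.volume x y :=
    fun x y => hLcont.intervalIntegrable x y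
  have hNJ : ∀ N : ℕ, ∫ t in (0:ℝ)..(N * (Real.pi / Ω)), L t = N * J := by
    intro N
    induction N with
    | zero => simp
    | succ N ih =>
      have e : ((N + 1 : ℕ) : ℝ) * (Real.pi / Ω) = N * (Real.pi / Ω) + Real.pi / Ω := by
        push_cast; ring
      rw [e, ← intervalIntegral.integral_add_adjacent_intervals (hint 0 (N * (Real.pi / Ω)))
        (hint _ _), ih, hper.intervalIntegral_add_eq (N * (Real.pi / Ω)) 0, zero_add]
      push_cast; ring
  obtain ⟨N, hN⟩ := exists_nat_gt (Real.log (1 / s) / J)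
  have hNJ' : Real.log (1 / s) ≤ N * J := by
    rw [div_lt_iff₀ hJ] at hN; exact hN.le
  set Φ : ℝ → ℝ := fun t => ∫ x in (0:ℝ)..t, L x with hΦ
  have hΦd : ∀ t, HasDerivAt Φ (L t) t := fun t => hLcont.integral_hasStrictDerivAt 0 t |>.hasDerivAt
  have hpi : 0 < Real.pi / Ω := div_pos Real.pi_pos hΩ0
  refine ⟨N * (Real.pi / Ω), by positivity, fun _ => g0, fun _ => r,
    fun t => s * Real.cos (2 * Ω * t), bb, fun t => s * W t, fun t => s * (y t * W t),
    fun t => s * Real.exp (Φ t), fun i _ => pp i, fun i t => s * Real.cos (G * pp i ^ 2 * t),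
    fun i t => s * Real.sin (G * pp i ^ 2 * t), ?_, ?_, ?_, ?_, ?_, ?_, ?_, ?_, ?_, ?_, ?_, ?_⟩
  · constructor
    · intro t _; exact hasDerivWithinAt_const _ _ _
    · intro t _; exact hasDerivWithinAt_const _ _ _
    · intro t _
      apply HasDerivAt.hasDerivWithinAt
      refine ((hcos (2 * Ω) t).const_mul s).congr_deriv ?_
      simp only [hbb, hΩ, hg0sq, hq0]; ring
    · intro t _
      apply HasDerivAt.hasDerivWithinAt
      refine ((hsin (2 * Ω) t).const_mul s).congr_deriv ?_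
      simp only [hΩ, hg0sq, hq0]; ring
    · intro t _
      apply HasDerivAt.hasDerivWithinAt
      refine ((hWd t).const_mul s).congr_deriv ?_
      ring
    · intro t _
      apply HasDerivAt.hasDerivWithinAt
      refine (((hyd t).mul (hWd t)).const_mul s).congr_deriv ?_
      have h := hW2 t
      have h2 : W t * (W t ^ 2 * (1 + y t ^ 2)) = W t := by rw [h, mul_one]
      linear_combination (-(s * (s ^ 2 * bb t))) * h2
    · intro t _
      apply HasDerivAt.hasDerivWithinAt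
      refine (((hΦd t).exp).const_mul s).congr_deriv ?_
      simp only [hL]; ring
    · intro i t _; exact hasDerivWithinAt_const _ _ _
    · intro i t _
      apply HasDerivAt.hasDerivWithinAt
      refine ((hcos (G * pp i ^ 2) t).const_mul s).congr_deriv ?_
      simp only [hg0sq]; ring
    · intro i t _
      apply HasDerivAt.hasDerivWithinAt
      refine ((hsin (G * pp i ^ 2) t).const_mul s).congr_deriv ?_
      simp only [hg0sq]; ring
  · rw [abs_of_nonneg hg00]; exact hg0δ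
  · rw [abs_of_pos hr0]; linarith
  · simp [abs_of_pos hs0, hsδ]
  · simp [hbb, hδ]
  · have : W 0 = 1 := by simp [hW, hy]
    simp only [this]; rw [mul_one, abs_of_pos hs0]; exact hsδ
  · have : y 0 = 0 := by simp [hy]
    simp only [this]; simpa using hδ
  · have : Φ 0 = 0 := by simp [hΦ]
    simp only [this]; rw [Real.exp_zero, mul_one, abs_of_pos hs0]; exact hsδ
  · intro i
    have h1 : 0 ≤ pp i := by simp only [hpp]; positivity
    rw [abs_of_nonneg h1]
    have h2 : Real.sqrt (m i) ≤ m i := by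
      rcases Nat.eq_zero_or_pos (m i) with h | h
      · rw [h]; simp
      · rw [Real.sqrt_le_left (by positivity)]
        have : (1:ℝ) ≤ m i := by exact_mod_cast h
        nlinarith
    calc pp i = Real.sqrt (m i) * r := rfl
      _ ≤ m i * r := mul_le_mul_of_nonneg_right h2 hr0.le
      _ ≤ s := hmr i
      _ < δ := hsδ
  · intro i; simp [abs_of_pos hs0, hsδ]
  · intro i; simp [hδ]
  · have h1 : Φ (N * (Real.pi / Ω)) = N * J := hNJ N
    simp only [h1]
    rw [abs_of_pos (by positivity)]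
    have h2 : 1 / s ≤ Real.exp (N * J) := by
      rw [← Real.log_le_iff_le_exp (by positivity)]; exact hNJ'
    calc (1:ℝ) = s * (1 / s) := by field_simp
      _ ≤ s * Real.exp (N * J) := mul_le_mul_of_nonneg_left h2 hs0.le

end Pool.Agent.H94.Stab
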