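import Pool.Agent.H94.Stab.Poly
import Pool.Agent.H94.Stab.Unstable

set_option autoImplicit false

/-!
Encoding of polynomial vector fields by lists of monomials.
-/

namespace Pool.Agent.H94.Stab

open MvPolynomial

/-- The value of one list entry. -/
noncomputable def entryVal (N D : ℕ) (x : Fin N → ℝ) (i : Fin N)
    (p : Fin N × (Fin N → ℕ) × (ℤ × ℕ)) : ℝ :=
  if p.1 = i ∧ 0 < ∑ j, p.2.1 j ∧ ∑ j, p.2.1 j ≤ D then
    ((p.2.2.1 : ℝ) / ((p.2.2.2 : ℝ) + 1)) * ∏ j, (x j) ^ (p.2.1 j)
  else 0

/-- The vector field given by a list. -/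
noncomputable def listField (N D : ℕ) (L : List (Fin N × (Fin N → ℕ) × (ℤ × ℕ)))
    (x : Fin N → ℝ) (i : Fin N) : ℝ :=
  (L.map (entryVal N D x i)).sum

theorem listField_append (N D : ℕ) (L L' : List (Fin N × (Fin N → ℕ) × (ℤ × ℕ)))
    (x : Fin N → ℝ) (i : Fin N) :
    listField N D (L ++ L') x i = listField N D L x i + listField N D L' x i := by
  simp [listField]

theorem listField_flatMap_range (N D n : ℕ) (L : List (Fin N × (Fin N → ℕ) × (ℤ × ℕ)))
    (x : Fin N → ℝ) (i : Fin N) :
    listField N D ((List.range n).flatMap (fun _ => L)) x i = n * listField N D L x i := by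
  induction n with
  | zero => simp [listField]
  | succ n ih =>
    rw [List.range_succ, List.flatMap_append, listField_append, ih]
    simp [List.flatMap_cons]
    ring

/-- Every family of integer polynomials without constant terms is the vector field of a list. -/
theorem exists_list {N : ℕ} (F : Fin N → MvPolynomial (Fin N) ℤ)
    (h0 : ∀ i, constantCoeff (F i) = 0) :
    ∃ (D : ℕ) (L : List (Fin N × (Fin N → ℕ) × (ℤ × ℕ))), ∀ D', D ≤ D' →
      ∀ (x : Fin N → ℝ) (i : Fin N), listField N D' L x i = aeval x (F i) := by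
  classical
  refine ⟨∑ i, (F i).totalDegree, (Finset.univ : Finset (Fin N)).toList.flatMap (fun i =>
    (F i).support.toList.map (fun s => (i, (fun j => s j), ((F i).coeff s, 0)))), ?_⟩
  intro D' hD' x i
  have key : ∀ l : List (Fin N), (listField N D' (l.flatMap (fun i =>
    (F i).support.toList.map (fun s => (i, (fun j => s j), ((F i).coeff s, 0))))) x i) =
      (l.map (fun k => if k = i then aeval x (F i) else (0:ℝ))).sum := by
    intro l
    induction l with
    | nil => simp [listField]
    | cons k l ih =>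
      rw [List.flatMap_cons, listField_append, ih, List.map_cons, List.sum_cons]
      congr 1
      unfold listField
      rw [List.map_map]
      by_cases hk : k = i
      · subst hk
        rw [if_pos rfl]
        have e1 : (aeval x (F k) : ℝ) = ∑ s ∈ (F k).support, (((F k).coeff s : ℤ) : ℝ) * ∏ j, x j ^ s j := by
          rw [aeval_def, eval₂_eq']
          simp
        rw [e1, ← Finset.sum_map_toList]
        congr 1
        apply List.map_congr_left
        intro s hs
        rw [Finset.mem_toList] at hs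
        simp only [Function.comp_apply, entryVal]
        have hpos : 0 < ∑ j, s j := by
          rw [Nat.pos_iff_ne_zero]
          intro hz
          have hs0 : s = 0 := by
            ext j
            have := Finset.sum_eq_zero_iff.1 hz j (Finset.mem_univ j)
            simpa using this
          rw [hs0] at hs
          have := h0 k
          rw [constantCoeff_eq] at this
          exact (mem_support_iff.1 hs) this
        have hle : ∑ j, s j ≤ D' := by
          have h1 := le_totalDegree hs
          have h2 : (s.sum fun _ e => e) = ∑ j, s j := Finsupp.sum_fintype _ _ (fun _ => rfl)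
          rw [h2] at h1
          have h3 : (F k).totalDegree ≤ ∑ i, (F i).totalDegree :=
            Finset.single_le_sum (f := fun i => (F i).totalDegree) (fun _ _ => Nat.zero_le _)
              (Finset.mem_univ k)
          omega
        rw [if_pos ⟨trivial, hpos, hle⟩]
        simp
      · rw [if_neg hk]
        apply List.sum_eq_zero
        intro y hy
        rw [List.mem_map] at hy
        obtain ⟨s, _, rfl⟩ := hy
        simp [entryVal, hk]
  rw [key, Finset.sum_map_toList]
  simp

/-- The index type of the variables. -/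
abbrev Idx (κ : Type) := Fin 7 ⊕ (κ ⊕ (κ ⊕ κ))

/-- The fixed part of the polynomial system. -/
noncomputable def FA {κ : Type} [Fintype κ] (Hp : MvPolynomial (Option κ) ℤ) (M : ℕ) (i0 : κ) :
    Idx κ → MvPolynomial (Idx κ) ℤ :=
  let g : MvPolynomial (Idx κ) ℤ := X (Sum.inl 0)
  let p0 : MvPolynomial (Idx κ) ℤ := X (Sum.inl 1)
  let a : MvPolynomial (Idx κ) ℤ := X (Sum.inl 2)
  let b : MvPolynomial (Idx κ) ℤ := X (Sum.inl 3)
  let C : MvPolynomial (Idx κ) ℤ := X (Sum.inl 4)
  let S : MvPolynomial (Idx κ) ℤ := X (Sum.inl 5)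
  let z : MvPolynomial (Idx κ) ℤ := X (Sum.inl 6)
  let p : κ → MvPolynomial (Idx κ) ℤ := fun i => X (Sum.inr (Sum.inl i))
  let u : κ → MvPolynomial (Idx κ) ℤ := fun i => X (Sum.inr (Sum.inr (Sum.inl i)))
  let v : κ → MvPolynomial (Idx κ) ℤ := fun i => X (Sum.inr (Sum.inr (Sum.inr i)))
  Sum.elim ![0, 0, -(2 * g ^ 2 * p0 ^ 2 * b), 2 * g ^ 2 * p0 ^ 2 * a, -(C ^ 2 * b * S),
    C ^ 2 * b * C, z * (g ^ 2 * C ^ 2 * ((p0 ^ 2) ^ (2 * M) * ∏ i, (u i ^ 2 + v i ^ 2)
      - ∑ i, v i ^ 2 - (aeval (fun o : Option κ => o.elim (p0 ^ 2) (fun i => p i ^ 2)) Hp) ^ 2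
      - (p i0 ^ 2) ^ 2))]
    (Sum.elim (fun _ => 0) (Sum.elim (fun i => -(g ^ 2 * p i ^ 2 * v i))
      (fun i => g ^ 2 * p i ^ 2 * u i)))

/-- The part multiplied by `n`. -/
noncomputable def FB {κ : Type} (i0 : κ) : Idx κ → MvPolynomial (Idx κ) ℤ :=
  Sum.elim ![0, 0, 0, 0, 0, 0, X (Sum.inl 6) * (X (Sum.inl 0) ^ 2 * X (Sum.inl 4) ^ 2 *
    (2 * X (Sum.inr (Sum.inl i0)) ^ 2 * X (Sum.inl 1) ^ 2))] (fun _ => 0)

/-- The part multiplied by `n ^ 2`. -/
noncomputable def FC {κ : Type} : Idx κ → MvPolynomial (Idx κ) ℤ :=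
  Sum.elim ![0, 0, 0, 0, 0, 0, X (Sum.inl 6) * (X (Sum.inl 0) ^ 2 * X (Sum.inl 4) ^ 2 *
    (-(X (Sum.inl 1) ^ 2) ^ 2))] (fun _ => 0)

theorem FA_const {κ : Type} [Fintype κ] (Hp : MvPolynomial (Option κ) ℤ) (M : ℕ) (i0 : κ)
    (j : Idx κ) : constantCoeff (FA Hp M i0 j) = 0 := by
  rcases j with j | j | j | j
  · fin_cases j <;> simp [FA]
  · simp [FA]
  · simp [FA]
  · simp [FA]

theorem FB_const {κ : Type} (i0 : κ) (j : Idx κ) : constantCoeff (FB i0 j) = 0 := by
  rcases j with j | j
  · fin_cases j <;> simp [FB]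
  · simp [FB]

theorem FC_const {κ : Type} (j : Idx κ) : constantCoeff (FC (κ := κ) j) = 0 := by
  rcases j with j | j
  · fin_cases j <;> simp [FC]
  · simp [FC]

/-- The full vector field on the structured state space. -/
noncomputable def V {κ : Type} [Fintype κ] (Hp : MvPolynomial (Option κ) ℤ) (M : ℕ) (i0 : κ)
    (n : ℕ) (x : Idx κ → ℝ) (j : Idx κ) : ℝ :=
  aeval x (FA Hp M i0 j) + n * aeval x (FB i0 j) + (n * n : ℕ) * aeval x (FC (κ := κ) j)

/-- The list of monomials, as a function of `n`. -/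
def mkList {N : ℕ} (LA LB LC : List (Fin N × (Fin N → ℕ) × (ℤ × ℕ))) (n : ℕ) :
    List (Fin N × (Fin N → ℕ) × (ℤ × ℕ)) :=
  LA ++ ((List.range n).flatMap (fun _ => LB) ++ (List.range (n * n)).flatMap (fun _ => LC))

theorem mkList_computable {N : ℕ} (LA LB LC : List (Fin N × (Fin N → ℕ) × (ℤ × ℕ))) :
    Computable (mkList LA LB LC) := by
  apply Primrec.to_comp
  unfold mkList
  apply Primrec.list_append.comp (Primrec.const LA)
  apply Primrec.list_append.comp
  · exact Primrec.list_flatMap Primrec.list_range (Primrec.const LB).to₂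
  · exact Primrec.list_flatMap
      (Primrec.list_range.comp (Primrec.nat_mul.comp Primrec.id Primrec.id)) (Primrec.const LC).to₂

/-- Existence of the lists. -/
theorem exists_system {κ : Type} [Fintype κ] (Hp : MvPolynomial (Option κ) ℤ) (M : ℕ)
    (i0 : κ) : ∃ (N D : ℕ) (e : Idx κ ≃ Fin N)
      (L : ℕ → List (Fin N × (Fin N → ℕ) × (ℤ × ℕ))), Computable L ∧
      ∀ (n : ℕ) (x : Fin N → ℝ) (j : Idx κ),
        listField N D (L n) x (e j) = V Hp M i0 n (x ∘ e) j := by
  classical
  obtain ⟨e⟩ : Nonempty (Idx κ ≃ Fin (Fintype.card (Idx κ))) := ⟨Fintype.equivFin _⟩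
  set N := Fintype.card (Idx κ)
  obtain ⟨DA, LA, hA⟩ := exists_list (fun i : Fin N => rename e (FA Hp M i0 (e.symm i)))
    (fun i => by rw [constantCoeff_rename]; exact FA_const _ _ _ _)
  obtain ⟨DB, LB, hB⟩ := exists_list (fun i : Fin N => rename e (FB i0 (e.symm i)))
    (fun i => by rw [constantCoeff_rename]; exact FB_const _ _)
  obtain ⟨DC, LC, hC⟩ := exists_list (fun i : Fin N => rename e (FC (e.symm i)))
    (fun i => by rw [constantCoeff_rename]; exact FC_const _)
  refine ⟨N, max DA (max DB DC), e, mkList LA LB LC, mkList_computable _ _ _, ?_⟩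
  intro n x j
  unfold mkList
  rw [listField_append, listField_append, listField_flatMap_range, listField_flatMap_range,
    hA _ (le_max_left _ _), hB _ ((le_max_left _ _).trans (le_max_right _ _)),
    hC _ ((le_max_right _ _).trans (le_max_right _ _))]
  simp only [Equiv.symm_apply_apply, aeval_rename, V]
  ring

end Pool.Agent.H94.Stab
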