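import Pool.Agent.H94.Stab.Encode

set_option autoImplicit false

/-!
The equivalence between stability of the constructed system and unsolvability of the Diophantine
equation.
-/

namespace Pool.Agent.H94.Stab

open Set MvPolynomial

/-- Lyapunov stability of the origin for the vector field coded by a list, exactly as in the frozen
statement. -/
def StablePred (N D : ℕ) (L : List (Fin N × (Fin N → ℕ) × (ℤ × ℕ))) : Prop :=
  ∀ ε : ℝ, 0 < ε → ∃ δ : ℝ, 0 < δ ∧
    ∀ T : ℝ, 0 ≤ T → ∀ γ : ℝ → (Fin N → ℝ),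
      ‖γ 0‖ < δ →
      (∀ t ∈ Set.Icc (0 : ℝ) T,
        HasDerivWithinAt γ (fun i : Fin N => listField N D L (γ t) i) (Set.Icc (0 : ℝ) T) t) →
      ∀ t ∈ Set.Icc (0 : ℝ) T, ‖γ t‖ < ε

section

variable {κ : Type} [Fintype κ] (Hp : MvPolynomial (Option κ) ℤ) (M : ℕ) (i0 : κ) (n : ℕ)
  (x : Idx κ → ℝ)

theorem V_g : V Hp M i0 n x (Sum.inl 0) = 0 := by simp [V, FA, FB, FC]
theorem V_p0 : V Hp M i0 n x (Sum.inl 1) = 0 := by simp [V, FA, FB, FC]
theorem V_a : V Hp M i0 n x (Sum.inl 2) =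
    -(2 * x (Sum.inl 0) ^ 2 * x (Sum.inl 1) ^ 2 * x (Sum.inl 3)) := by simp [V, FA, FB, FC]
theorem V_b : V Hp M i0 n x (Sum.inl 3) =
    2 * x (Sum.inl 0) ^ 2 * x (Sum.inl 1) ^ 2 * x (Sum.inl 2) := by simp [V, FA, FB, FC]
theorem V_C : V Hp M i0 n x (Sum.inl 4) =
    -(x (Sum.inl 4) ^ 2 * x (Sum.inl 3) * x (Sum.inl 5)) := by simp [V, FA, FB, FC]
theorem V_S : V Hp M i0 n x (Sum.inl 5) =
    x (Sum.inl 4) ^ 2 * x (Sum.inl 3) * x (Sum.inl 4) := by simp [V, FA, FB, FC]
theorem V_p (i : κ) : V Hp M i0 n x (Sum.inr (Sum.inl i)) = 0 := by simp [V, FA, FB, FC]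
theorem V_u (i : κ) : V Hp M i0 n x (Sum.inr (Sum.inr (Sum.inl i))) =
    -(x (Sum.inl 0) ^ 2 * x (Sum.inr (Sum.inl i)) ^ 2 * x (Sum.inr (Sum.inr (Sum.inr i)))) := by
  simp [V, FA, FB, FC]
theorem V_v (i : κ) : V Hp M i0 n x (Sum.inr (Sum.inr (Sum.inr i))) =
    x (Sum.inl 0) ^ 2 * x (Sum.inr (Sum.inl i)) ^ 2 * x (Sum.inr (Sum.inr (Sum.inl i))) := by
  simp [V, FA, FB, FC]
theorem V_z : V Hp M i0 n x (Sum.inl 6) =
    x (Sum.inl 6) * (x (Sum.inl 0) ^ 2 * x (Sum.inl 4) ^ 2 *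
    ((x (Sum.inl 1) ^ 2) ^ (2 * M) * ∏ i, (x (Sum.inr (Sum.inr (Sum.inl i))) ^ 2 +
        x (Sum.inr (Sum.inr (Sum.inr i))) ^ 2) - ∑ i, x (Sum.inr (Sum.inr (Sum.inr i))) ^ 2
      - (aeval (fun o : Option κ => o.elim (x (Sum.inl 1) ^ 2)
          (fun i => x (Sum.inr (Sum.inl i)) ^ 2)) Hp : ℝ) ^ 2
      - (x (Sum.inr (Sum.inl i0)) ^ 2 - n * x (Sum.inl 1) ^ 2) ^ 2)) := by
  have key : (aeval x (aeval (fun o : Option κ => o.elim ((X (Sum.inl 1) : MvPolynomial (Idx κ) ℤ) ^ 2)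
      (fun i => X (Sum.inr (Sum.inl i)) ^ 2)) Hp) : ℝ) =
      aeval (fun o : Option κ => o.elim (x (Sum.inl 1) ^ 2)
          (fun i => x (Sum.inr (Sum.inl i)) ^ 2)) Hp := by
    rw [comp_aeval_apply]
    congr 2
    funext o
    cases o <;> simp
  simp only [V, FA, FB, FC, Sum.elim_inl, Matrix.cons_val, map_mul, map_pow, map_sub, map_add,
    map_neg, map_prod, map_sum, aeval_X, key, map_ofNat]
  push_cast
  ring

end

/-- From the coded differential equation to the structured one. -/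
theorem sol_of_gamma {κ : Type} [Fintype κ] (Hp : MvPolynomial (Option κ) ℤ) (M : ℕ) (i0 : κ)
    (n : ℕ) {N D : ℕ} (e : Idx κ ≃ Fin N) (L : List (Fin N × (Fin N → ℕ) × (ℤ × ℕ)))
    (hL : ∀ (x : Fin N → ℝ) (j : Idx κ), listField N D L x (e j) = V Hp M i0 n (x ∘ e) j)
    {T : ℝ} {γ : ℝ → (Fin N → ℝ)}
    (hγ : ∀ t ∈ Set.Icc (0 : ℝ) T,
        HasDerivWithinAt γ (fun i : Fin N => listField N D L (γ t) i) (Set.Icc (0 : ℝ) T) t) :
    Sol (fun q0 q => (aeval (fun o : Option κ => o.elim q0 q) Hp : ℝ)) M i0 n T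
      (fun t => γ t (e (Sum.inl 0))) (fun t => γ t (e (Sum.inl 1))) (fun t => γ t (e (Sum.inl 2)))
      (fun t => γ t (e (Sum.inl 3))) (fun t => γ t (e (Sum.inl 4))) (fun t => γ t (e (Sum.inl 5)))
      (fun t => γ t (e (Sum.inl 6))) (fun i t => γ t (e (Sum.inr (Sum.inl i))))
      (fun i t => γ t (e (Sum.inr (Sum.inr (Sum.inl i)))))
      (fun i t => γ t (e (Sum.inr (Sum.inr (Sum.inr i))))) := by
  have h : ∀ t ∈ Icc (0:ℝ) T, ∀ j, HasDerivWithinAt (fun t => γ t (e j))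
      (V Hp M i0 n (γ t ∘ e) j) (Icc 0 T) t := by
    intro t ht j
    have := (hasDerivWithinAt_pi.1 (hγ t ht)) (e j)
    rw [hL] at this
    exact this
  constructor
  · intro t ht; exact (h t ht _).congr_deriv (V_g Hp M i0 n _)
  · intro t ht; exact (h t ht _).congr_deriv (V_p0 Hp M i0 n _)
  · intro t ht; exact (h t ht _).congr_deriv (V_a Hp M i0 n _)
  · intro t ht; exact (h t ht _).congr_deriv (V_b Hp M i0 n _)
  · intro t ht; exact (h t ht _).congr_deriv (V_C Hp M i0 n _)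
  · intro t ht; exact (h t ht _).congr_deriv (V_S Hp M i0 n _)
  · intro t ht; exact (h t ht _).congr_deriv (V_z Hp M i0 n _)
  · intro i t ht; exact (h t ht _).congr_deriv (V_p Hp M i0 n _ i)
  · intro i t ht; exact (h t ht _).congr_deriv (V_u Hp M i0 n _ i)
  · intro i t ht; exact (h t ht _).congr_deriv (V_v Hp M i0 n _ i)

/-- From the structured differential equation to the coded one. -/
theorem gamma_of_sol {κ : Type} [Fintype κ] (Hp : MvPolynomial (Option κ) ℤ) (M : ℕ) (i0 : κ)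
    (n : ℕ) {N D : ℕ} (e : Idx κ ≃ Fin N) (L : List (Fin N × (Fin N → ℕ) × (ℤ × ℕ)))
    (hL : ∀ (x : Fin N → ℝ) (j : Idx κ), listField N D L x (e j) = V Hp M i0 n (x ∘ e) j)
    {T : ℝ} {g p0 a b C S z : ℝ → ℝ} {p u v : κ → ℝ → ℝ}
    (hs : Sol (fun q0 q => (aeval (fun o : Option κ => o.elim q0 q) Hp : ℝ)) M i0 n T
      g p0 a b C S z p u v) :
    ∃ γ : ℝ → (Fin N → ℝ), (∀ t ∈ Set.Icc (0 : ℝ) T,
        HasDerivWithinAt γ (fun i : Fin N => listField N D L (γ t) i) (Set.Icc (0 : ℝ) T) t) ∧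
      ∀ t j, γ t (e j) = Sum.elim ![g t, p0 t, a t, b t, C t, S t, z t]
        (Sum.elim (fun i => p i t) (Sum.elim (fun i => u i t) (fun i => v i t))) j := by
  refine ⟨fun t i => Sum.elim ![g t, p0 t, a t, b t, C t, S t, z t]
        (Sum.elim (fun i => p i t) (Sum.elim (fun i => u i t) (fun i => v i t))) (e.symm i), ?_, ?_⟩
  · intro t ht
    rw [hasDerivWithinAt_pi]
    intro i
    obtain ⟨j, rfl⟩ := e.surjective i
    rw [hL]
    simp only [Equiv.symm_apply_apply]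
    have hcomp : (fun i => Sum.elim ![g t, p0 t, a t, b t, C t, S t, z t]
        (Sum.elim (fun i => p i t) (Sum.elim (fun i => u i t) (fun i => v i t))) (e.symm i)) ∘ e =
        Sum.elim ![g t, p0 t, a t, b t, C t, S t, z t]
        (Sum.elim (fun i => p i t) (Sum.elim (fun i => u i t) (fun i => v i t))) := by
      funext j; simp
    rw [hcomp]
    set xx : Idx κ → ℝ := Sum.elim ![g t, p0 t, a t, b t, C t, S t, z t]
        (Sum.elim (fun i => p i t) (Sum.elim (fun i => u i t) (fun i => v i t))) with hxx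
    rcases j with j | j | j | j
    · fin_cases j
      · exact (hs.dg t ht).congr_deriv (V_g Hp M i0 n xx).symm
      · exact (hs.dp0 t ht).congr_deriv (V_p0 Hp M i0 n xx).symm
      · exact (hs.da t ht).congr_deriv (V_a Hp M i0 n xx).symm
      · exact (hs.db t ht).congr_deriv (V_b Hp M i0 n xx).symm
      · exact (hs.dC t ht).congr_deriv (V_C Hp M i0 n xx).symm
      · exact (hs.dS t ht).congr_deriv (V_S Hp M i0 n xx).symm
      · exact (hs.dz t ht).congr_deriv (V_z Hp M i0 n xx).symm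
    · exact (hs.dp j t ht).congr_deriv (V_p Hp M i0 n xx j).symm
    · exact (hs.du j t ht).congr_deriv (V_u Hp M i0 n xx j).symm
    · exact (hs.dv j t ht).congr_deriv (V_v Hp M i0 n xx j).symm
  · intro t j
    simp

/-- The reduction: the coded system is stable iff the Diophantine equation has no solution. -/
theorem main_iff {κ : Type} [Fintype κ] (P : MvPolynomial κ ℤ) (i0 : κ) :
    ∃ (N D : ℕ) (L : ℕ → List (Fin N × (Fin N → ℕ) × (ℤ × ℕ))), Computable L ∧
      ∀ n, StablePred N D (L n) ↔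
        ¬ ∃ y : κ → ℕ, y i0 = n ∧ MvPolynomial.eval (fun i => (y i : ℤ)) P = 0 := by
  obtain ⟨d, d', K, Hp, hP⟩ := exists_polyData P
  set M := d + d' + 2 with hM
  obtain ⟨N, D, e, L, hLc, hL⟩ := exists_system Hp M i0
  refine ⟨N, D, L, hLc, ?_⟩
  intro n
  have hcast : ∀ y : κ → ℕ, (aeval (fun i => (y i : ℝ)) P : ℝ) =
      ((MvPolynomial.eval (fun i => (y i : ℤ)) P : ℤ) : ℝ) := by
    intro y
    have h1 : (fun i => (y i : ℝ)) = fun i => (algebraMap ℤ ℝ) ((y i : ℤ)) := by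
      funext i; simp
    rw [h1]
    have h2 := aeval_algebraMap_apply (A := ℤ) ℝ (fun i => (y i : ℤ)) P
    rw [Function.comp_def] at h2
    rw [h2]
    simp [aeval_eq_eval]
  constructor
  · rintro hst ⟨y, hyn, hy0⟩
    obtain ⟨δ, hδ, h⟩ := hst 1 one_pos
    have hH : ∀ q0 : ℝ, 0 < q0 → (fun q0 q => (aeval (fun o : Option κ => o.elim q0 q) Hp : ℝ))
        q0 (fun i => (y i : ℝ) * q0) = 0 := by
      intro q0 hq0
      have h1 := hP.hom q0 hq0.ne' (fun i => (y i : ℝ) * q0)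
      have h2 : (fun i => (y i : ℝ) * q0 / q0) = fun i => (y i : ℝ) := by
        funext i; field_simp
      simp only at h1 ⊢
      rw [h1, h2, hcast, hy0]
      simp
    obtain ⟨T, hT, g, p0, a, b, C, S, z, p, u, v, hs, b1, b2, b3, b4, b5, b6, b7, b8, b9, b10, hz⟩ :=
      unstable (fun q0 q => (aeval (fun o : Option κ => o.elim q0 q) Hp : ℝ)) M i0 y hH hδ
    rw [hyn] at hs
    obtain ⟨γ, hγ, hγe⟩ := gamma_of_sol Hp M i0 n e (L n) (hL n) hs
    have hnorm : ‖γ 0‖ < δ := by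
      rw [pi_norm_lt_iff hδ]
      intro i
      obtain ⟨j, rfl⟩ := e.surjective i
      rw [hγe, Real.norm_eq_abs]
      rcases j with j | j | j | j
      · fin_cases j
        · exact b1
        · exact b2
        · exact b3
        · exact b4
        · exact b5
        · exact b6
        · exact b7
      · exact b8 j
      · exact b9 j
      · exact b10 j
    have hfin := h T hT γ hnorm hγ T ⟨hT, le_rfl⟩
    have h3 := norm_le_pi_norm (γ T) (e (Sum.inl 6))
    rw [hγe, Real.norm_eq_abs] at h3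
    have h4 : |z T| ≤ ‖γ T‖ := h3
    linarith
  · intro hno ε hε
    have hKpos : 0 < K := by linarith [hP.K1]
    set δ := min (ε / 4) (min (1 / 4) (1 / (2 * K))) with hδ
    have hδ0 : 0 < δ := by
      apply lt_min (by positivity) (lt_min (by norm_num) (by positivity))
    have hδε : δ ≤ ε / 4 := min_le_left _ _
    have hδ1 : δ ≤ 1 / 4 := (min_le_right _ _).trans (min_le_left _ _)
    have hδK : δ ≤ 1 / (2 * K) := (min_le_right _ _).trans (min_le_right _ _)
    refine ⟨δ, hδ0, ?_⟩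
    intro T hT γ hγ0 hγ
    have hs := sol_of_gamma Hp M i0 n e (L n) (hL n) hγ
    have hb : ∀ j, |γ 0 (e j)| < δ := by
      intro j
      rw [← Real.norm_eq_abs]
      exact (norm_le_pi_norm (γ 0) (e j)).trans_lt hγ0
    have hint : ∀ y : κ → ℕ, y i0 = n → 1 ≤ |(fun x : κ → ℝ => (aeval x P : ℝ))
        (fun i => (y i : ℝ))| := by
      intro y hy
      simp only
      rw [hcast]
      have h1 : MvPolynomial.eval (fun i => (y i : ℤ)) P ≠ 0 := fun h => hno ⟨y, hy, h⟩
      have h2 := Int.one_le_abs h1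
      exact_mod_cast h2
    have hz := z_bound hP i0 n hint (M := M) (by omega) (by omega) (by omega) hδ1 hδK hs
      (hb _) (hb _) (hb _) (fun i => hb _) (fun i => hb _) (fun i => hb _)
    intro t ht
    rw [pi_norm_lt_iff hε]
    intro i
    obtain ⟨j, rfl⟩ := e.surjective i
    rw [Real.norm_eq_abs]
    have sqlt : ∀ x : ℝ, |x| < δ → x ^ 2 < δ ^ 2 := by
      intro x hx
      rw [← sq_abs]; exact pow_lt_pow_left₀ hx (abs_nonneg _) two_ne_zero
    -- a bound through the square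
    have fin : ∀ x : ℝ, x ^ 2 < 4 * δ ^ 2 → |x| < ε := by
      intro x hx
      have h1 : |x| < 2 * δ := by
        rw [← sq_abs] at hx
        have : |x| ^ 2 < (2 * δ) ^ 2 := by rw [mul_pow]; linarith
        exact lt_of_pow_lt_pow_left₀ 2 (by positivity) this
      linarith
    have hδ2 : 0 < δ ^ 2 := by positivity
    rcases j with j | j | j | j
    · fin_cases j
      · apply fin
        have := const_of_deriv_zero hs.dg t ht
        show γ t (e (Sum.inl 0)) ^ 2 < 4 * δ ^ 2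
        rw [this]
        linarith [sqlt _ (hb (Sum.inl 0))]
      · apply fin
        have := const_of_deriv_zero hs.dp0 t ht
        show γ t (e (Sum.inl 1)) ^ 2 < 4 * δ ^ 2
        rw [this]
        linarith [sqlt _ (hb (Sum.inl 1))]
      · apply fin
        have := sq_const (w := fun t => 2 * γ t (e (Sum.inl 0)) ^ 2 * γ t (e (Sum.inl 1)) ^ 2)
          hs.da hs.db t ht
        show γ t (e (Sum.inl 2)) ^ 2 < 4 * δ ^ 2
        nlinarith [sqlt _ (hb (Sum.inl 2)), sqlt _ (hb (Sum.inl 3)),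
          sq_nonneg (γ t (e (Sum.inl 3)))]
      · apply fin
        have := sq_const (w := fun t => 2 * γ t (e (Sum.inl 0)) ^ 2 * γ t (e (Sum.inl 1)) ^ 2)
          hs.da hs.db t ht
        show γ t (e (Sum.inl 3)) ^ 2 < 4 * δ ^ 2
        nlinarith [sqlt _ (hb (Sum.inl 2)), sqlt _ (hb (Sum.inl 3)),
          sq_nonneg (γ t (e (Sum.inl 2)))]
      · apply fin
        have := sq_const (w := fun t => γ t (e (Sum.inl 4)) ^ 2 * γ t (e (Sum.inl 3)))
          hs.dC hs.dS t ht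
        show γ t (e (Sum.inl 4)) ^ 2 < 4 * δ ^ 2
        nlinarith [sqlt _ (hb (Sum.inl 4)), sqlt _ (hb (Sum.inl 5)),
          sq_nonneg (γ t (e (Sum.inl 5)))]
      · apply fin
        have := sq_const (w := fun t => γ t (e (Sum.inl 4)) ^ 2 * γ t (e (Sum.inl 3)))
          hs.dC hs.dS t ht
        show γ t (e (Sum.inl 5)) ^ 2 < 4 * δ ^ 2
        nlinarith [sqlt _ (hb (Sum.inl 4)), sqlt _ (hb (Sum.inl 5)),
          sq_nonneg (γ t (e (Sum.inl 4)))]
      · apply fin
        have h1 := hz t ht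
        show γ t (e (Sum.inl 6)) ^ 2 < 4 * δ ^ 2
        linarith [sqlt _ (hb (Sum.inl 6))]
    · apply fin
      have := const_of_deriv_zero (hs.dp j) t ht
      rw [this]
      linarith [sqlt _ (hb (Sum.inr (Sum.inl j)))]
    · apply fin
      have := sq_const (w := fun t => γ t (e (Sum.inl 0)) ^ 2 * γ t (e (Sum.inr (Sum.inl j))) ^ 2)
        (hs.du j) (hs.dv j) t ht
      nlinarith [sqlt _ (hb (Sum.inr (Sum.inr (Sum.inl j)))),
        sqlt _ (hb (Sum.inr (Sum.inr (Sum.inr j)))),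
        sq_nonneg (γ t (e (Sum.inr (Sum.inr (Sum.inr j)))))]
    · apply fin
      have := sq_const (w := fun t => γ t (e (Sum.inl 0)) ^ 2 * γ t (e (Sum.inr (Sum.inl j))) ^ 2)
        (hs.du j) (hs.dv j) t ht
      nlinarith [sqlt _ (hb (Sum.inr (Sum.inr (Sum.inl j)))),
        sqlt _ (hb (Sum.inr (Sum.inr (Sum.inr j)))),
        sq_nonneg (γ t (e (Sum.inr (Sum.inr (Sum.inl j)))))]

/-- Undecidability, from an undecidable Diophantine problem. -/
theorem undecidable_of_dioph {κ : Type} [Fintype κ] (P : MvPolynomial κ ℤ) (i0 : κ)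
    (hund : ¬ ComputablePred (fun n : ℕ =>
      ∃ y : κ → ℕ, y i0 = n ∧ MvPolynomial.eval (fun i => (y i : ℤ)) P = 0)) :
    ∃ N D : ℕ, ¬ ComputablePred (StablePred N D) := by
  obtain ⟨N, D, L, hLc, hiff⟩ := main_iff P i0
  refine ⟨N, D, fun h => hund ?_⟩
  have h1 : ComputablePred (fun n => StablePred N D (L n)) :=
    ComputablePred.computable_of_manyOneReducible ⟨L, hLc, fun _ => Iff.rfl⟩ h
  exact h1.not.of_eq (fun n => by rw [hiff n, not_not])

end Pool.Agent.H94.Stab
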