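import Pool.Agent.H94.Stab.Arith

set_option autoImplicit false

/-!
Homogenisation and growth bounds for integer polynomials.
-/

namespace Pool.Agent.H94.Stab

open MvPolynomial

theorem exists_homogenisation {κ : Type} (P : MvPolynomial κ ℤ) :
    ∃ (d : ℕ) (Hp : MvPolynomial (Option κ) ℤ), ∀ q0 : ℝ, q0 ≠ 0 → ∀ q : κ → ℝ,
      aeval (fun o : Option κ => o.elim q0 q) Hp = q0 ^ d * aeval (fun i => q i / q0) P := by
  induction P using MvPolynomial.induction_on with
  | C a =>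
    refine ⟨0, C a, ?_⟩
    intro q0 _ q
    simp
  | add p q hp hq =>
    obtain ⟨d1, H1, h1⟩ := hp
    obtain ⟨d2, H2, h2⟩ := hq
    refine ⟨d1 + d2, X none ^ d2 * H1 + X none ^ d1 * H2, ?_⟩
    intro q0 hq0 x
    simp only [map_add, map_mul, map_pow, aeval_X, Option.elim_none, h1 q0 hq0 x, h2 q0 hq0 x]
    ring
  | mul_X p i hp =>
    obtain ⟨d1, H1, h1⟩ := hp
    refine ⟨d1 + 1, H1 * X (some i), ?_⟩
    intro q0 hq0 x
    simp only [map_mul, aeval_X, Option.elim_some, h1 q0 hq0 x]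
    field_simp
    ring

theorem exists_lip {κ : Type} (P : MvPolynomial κ ℤ) :
    ∃ (d' : ℕ) (K : ℝ), 1 ≤ K ∧
      (∀ x : κ → ℝ, ∀ B : ℝ, 1 ≤ B → (∀ i, |x i| ≤ B) →
        |(aeval x P : ℝ)| ≤ K * B ^ d') ∧
      (∀ x y : κ → ℝ, ∀ B : ℝ, 1 ≤ B → ∀ h : ℝ, 0 ≤ h → (∀ i, |x i| ≤ B) →
        (∀ i, |y i| ≤ B) → (∀ i, |x i - y i| ≤ h) →
        |(aeval x P : ℝ) - aeval y P| ≤ K * B ^ d' * h) := by
  induction P using MvPolynomial.induction_on with
  | C a =>
    refine ⟨0, max 1 |(a : ℝ)|, le_max_left _ _, ?_, ?_⟩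
    · intro x B hB hx
      simp
    · intro x y B hB h hh _ _ _
      simp only [algHom_C, sub_self, abs_zero]
      positivity
  | add p q hp hq =>
    obtain ⟨d1, K1, hK1, a1, b1⟩ := hp
    obtain ⟨d2, K2, hK2, a2, b2⟩ := hq
    refine ⟨d1 + d2, K1 + K2, by linarith, ?_, ?_⟩
    · intro x B hB hx
      have e1 := a1 x B hB hx
      have e2 := a2 x B hB hx
      have f1 : B ^ d1 ≤ B ^ (d1 + d2) := pow_le_pow_right₀ hB (by omega)
      have f2 : B ^ d2 ≤ B ^ (d1 + d2) := pow_le_pow_right₀ hB (by omega)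
      rw [map_add]
      calc |(aeval x p : ℝ) + aeval x q| ≤ |(aeval x p : ℝ)| + |(aeval x q : ℝ)| := abs_add_le _ _
        _ ≤ K1 * B ^ d1 + K2 * B ^ d2 := by linarith
        _ ≤ K1 * B ^ (d1 + d2) + K2 * B ^ (d1 + d2) := by
          gcongr
        _ = (K1 + K2) * B ^ (d1 + d2) := by ring
    · intro x y B hB h hh hx hy hxy
      have e1 := b1 x y B hB h hh hx hy hxy
      have e2 := b2 x y B hB h hh hx hy hxy
      have f1 : B ^ d1 ≤ B ^ (d1 + d2) := pow_le_pow_right₀ hB (by omega)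
      have f2 : B ^ d2 ≤ B ^ (d1 + d2) := pow_le_pow_right₀ hB (by omega)
      rw [map_add, map_add]
      have : (aeval x p : ℝ) + aeval x q - (aeval y p + aeval y q) =
        (aeval x p - aeval y p) + (aeval x q - aeval y q) := by ring
      rw [this]
      calc |((aeval x p : ℝ) - aeval y p) + (aeval x q - aeval y q)|
          ≤ |(aeval x p : ℝ) - aeval y p| + |(aeval x q : ℝ) - aeval y q| := abs_add_le _ _
        _ ≤ K1 * B ^ d1 * h + K2 * B ^ d2 * h := by linarith
        _ ≤ K1 * B ^ (d1 + d2) * h + K2 * B ^ (d1 + d2) * h := by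
          gcongr
        _ = (K1 + K2) * B ^ (d1 + d2) * h := by ring
  | mul_X p i hp =>
    obtain ⟨d1, K1, hK1, a1, b1⟩ := hp
    refine ⟨d1 + 1, 2 * K1, by linarith, ?_, ?_⟩
    · intro x B hB hx
      have e1 := a1 x B hB hx
      have hKB : 0 ≤ K1 * B ^ d1 := by positivity
      rw [map_mul, aeval_X, abs_mul]
      calc |(aeval x p : ℝ)| * |x i| ≤ (K1 * B ^ d1) * B :=
            mul_le_mul e1 (hx i) (abs_nonneg _) hKB
        _ ≤ 2 * K1 * B ^ (d1 + 1) := by
          rw [pow_succ]; nlinarith [mul_nonneg hKB (by linarith : (0:ℝ) ≤ B)]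
    · intro x y B hB h hh hx hy hxy
      have e1 := b1 x y B hB h hh hx hy hxy
      have e2 := a1 x B hB hx
      have hKB : 0 ≤ K1 * B ^ d1 := by positivity
      rw [map_mul, map_mul, aeval_X, aeval_X]
      have : (aeval x p : ℝ) * x i - aeval y p * y i =
        aeval x p * (x i - y i) + (aeval x p - aeval y p) * y i := by ring
      rw [this]
      calc |(aeval x p : ℝ) * (x i - y i) + (aeval x p - aeval y p) * y i|
          ≤ |(aeval x p : ℝ) * (x i - y i)| + |((aeval x p : ℝ) - aeval y p) * y i| :=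
            abs_add_le _ _
        _ = |(aeval x p : ℝ)| * |x i - y i| + |(aeval x p : ℝ) - aeval y p| * |y i| := by
            rw [abs_mul, abs_mul]
        _ ≤ (K1 * B ^ d1) * h + (K1 * B ^ d1 * h) * B := by
            apply add_le_add
            · exact mul_le_mul e2 (hxy i) (abs_nonneg _) hKB
            · exact mul_le_mul e1 (hy i) (abs_nonneg _) (by positivity)
        _ ≤ 2 * K1 * B ^ (d1 + 1) * h := by
            rw [pow_succ]
            have h1 : 0 ≤ K1 * B ^ d1 * h := by positivity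
            nlinarith

/-- Every integer polynomial gives `PolyData`. -/
theorem exists_polyData {κ : Type} (P : MvPolynomial κ ℤ) :
    ∃ (d d' : ℕ) (K : ℝ) (Hp : MvPolynomial (Option κ) ℤ),
      PolyData (fun x : κ → ℝ => (aeval x P : ℝ))
        (fun q0 q => (aeval (fun o : Option κ => o.elim q0 q) Hp : ℝ)) d d' K := by
  obtain ⟨d, Hp, h1⟩ := exists_homogenisation P
  obtain ⟨d', K, hK, _, h2⟩ := exists_lip P
  refine ⟨d, d', K, Hp, ⟨h1, hK, ?_⟩⟩
  intro x y B hB h hh _ hx hy hxy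
  exact h2 x y B hB h hh hx hy hxy

end Pool.Agent.H94.Stab
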