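import Pool.Agent.H94.Stab.Arith

set_option autoImplicit false

/-!
The stable direction: if the Diophantine equation has no solution, then all solutions of the
differential equation that start close to the origin stay close to the origin.
-/

namespace Pool.Agent.H94.Stab

open Set

/-- The differential equation on the interval `[0, T]`. -/
structure Sol {κ : Type*} [Fintype κ] (H : ℝ → (κ → ℝ) → ℝ) (M : ℕ) (i0 : κ) (n : ℕ) (T : ℝ)
    (g p0 a b C S z : ℝ → ℝ) (p u v : κ → ℝ → ℝ) : Prop where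
  dg : ∀ t ∈ Icc (0:ℝ) T, HasDerivWithinAt g 0 (Icc 0 T) t
  dp0 : ∀ t ∈ Icc (0:ℝ) T, HasDerivWithinAt p0 0 (Icc 0 T) t
  da : ∀ t ∈ Icc (0:ℝ) T, HasDerivWithinAt a (-(2 * g t ^ 2 * p0 t ^ 2 * b t)) (Icc 0 T) t
  db : ∀ t ∈ Icc (0:ℝ) T, HasDerivWithinAt b (2 * g t ^ 2 * p0 t ^ 2 * a t) (Icc 0 T) t
  dC : ∀ t ∈ Icc (0:ℝ) T, HasDerivWithinAt C (-(C t ^ 2 * b t * S t)) (Icc 0 T) t
  dS : ∀ t ∈ Icc (0:ℝ) T, HasDerivWithinAt S (C t ^ 2 * b t * C t) (Icc 0 T) t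
  dz : ∀ t ∈ Icc (0:ℝ) T, HasDerivWithinAt z (z t * (g t ^ 2 * C t ^ 2 *
    ((p0 t ^ 2) ^ (2 * M) * ∏ i, (u i t ^ 2 + v i t ^ 2) - ∑ i, v i t ^ 2
      - H (p0 t ^ 2) (fun i => p i t ^ 2) ^ 2 - (p i0 t ^ 2 - n * p0 t ^ 2) ^ 2))) (Icc 0 T) t
  dp : ∀ i, ∀ t ∈ Icc (0:ℝ) T, HasDerivWithinAt (p i) 0 (Icc 0 T) t
  du : ∀ i, ∀ t ∈ Icc (0:ℝ) T,
    HasDerivWithinAt (u i) (-(g t ^ 2 * p i t ^ 2 * v i t)) (Icc 0 T) t
  dv : ∀ i, ∀ t ∈ Icc (0:ℝ) T,
    HasDerivWithinAt (v i) (g t ^ 2 * p i t ^ 2 * u i t) (Icc 0 T) t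

/-- Main estimate for the unstable coordinate in the absence of Diophantine solutions. -/
theorem z_bound {κ : Type*} [Fintype κ] {Pr : (κ → ℝ) → ℝ} {H : ℝ → (κ → ℝ) → ℝ}
    {d d' : ℕ} {K : ℝ} (hP : PolyData Pr H d d' K) (i0 : κ) (n : ℕ)
    (hint : ∀ y : κ → ℕ, y i0 = n → 1 ≤ |Pr (fun i => (y i : ℝ))|)
    {M : ℕ} (hM2 : 2 ≤ M) (hMd : d + 1 ≤ M) (hMd' : d' + 1 ≤ M)
    {δ : ℝ} (hδ1 : δ ≤ 1 / 4) (hδK : δ ≤ 1 / (2 * K)) {T : ℝ}
    {g p0 a b C S z : ℝ → ℝ} {p u v : κ → ℝ → ℝ}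
    (hs : Sol H M i0 n T g p0 a b C S z p u v)
    (hp0 : |p0 0| < δ) (hC : |C 0| < δ) (hS : |S 0| < δ)
    (hp : ∀ i, |p i 0| < δ) (hu : ∀ i, |u i 0| < δ) (hv : ∀ i, |v i 0| < δ) :
    ∀ t ∈ Icc (0:ℝ) T, z t ^ 2 ≤ z 0 ^ 2 * 4 := by
  classical
  have hKpos : 0 < K := by linarith [hP.K1]
  have hδ0 : 0 < δ := lt_of_le_of_lt (abs_nonneg _) hp0
  have sqlt : ∀ x : ℝ, |x| < δ → x ^ 2 ≤ δ ^ 2 := by
    intro x hx
    rw [← sq_abs]; exact pow_le_pow_left₀ (abs_nonneg _) hx.le 2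
  have hδ2 : δ ^ 2 ≤ 1 / 16 := by nlinarith
  -- constants of motion
  have cg := const_of_deriv_zero hs.dg
  have cp0 := const_of_deriv_zero hs.dp0
  have cp : ∀ i, ∀ t ∈ Icc (0:ℝ) T, p i t = p i 0 := fun i => const_of_deriv_zero (hs.dp i)
  set q0 := p0 0 ^ 2 with hq0
  set q : κ → ℝ := fun i => p i 0 ^ 2 with hq
  set G := g 0 ^ 2 with hG
  have hG0 : 0 ≤ G := sq_nonneg _
  have hq00 : 0 ≤ q0 := sq_nonneg _
  have hq0le : q0 ≤ 1 / 16 := (sqlt _ hp0).trans hδ2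
  have hqi0 : ∀ i, 0 ≤ q i := fun i => sq_nonneg _
  have hqile : ∀ i, q i ≤ 1 / 2 := fun i => ((sqlt _ (hp i)).trans hδ2).trans (by norm_num)
  have da : ∀ t ∈ Icc (0:ℝ) T, HasDerivWithinAt a (-((2 * G * q0) * b t)) (Icc 0 T) t := by
    intro t ht
    have := hs.da t ht
    rw [cg t ht, cp0 t ht] at this
    exact this
  have db : ∀ t ∈ Icc (0:ℝ) T, HasDerivWithinAt b ((2 * G * q0) * a t) (Icc 0 T) t := by
    intro t ht
    have := hs.db t ht
    rw [cg t ht, cp0 t ht] at this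
    exact this
  have du : ∀ i, ∀ t ∈ Icc (0:ℝ) T,
      HasDerivWithinAt (u i) (-((G * q i) * v i t)) (Icc 0 T) t := by
    intro i t ht
    have := hs.du i t ht
    rw [cg t ht, cp i t ht] at this
    exact this
  have dv : ∀ i, ∀ t ∈ Icc (0:ℝ) T,
      HasDerivWithinAt (v i) ((G * q i) * u i t) (Icc 0 T) t := by
    intro i t ht
    have := hs.dv i t ht
    rw [cg t ht, cp i t ht] at this
    exact this
  have cR : ∀ i, ∀ t ∈ Icc (0:ℝ) T, u i t ^ 2 + v i t ^ 2 = u i 0 ^ 2 + v i 0 ^ 2 :=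
    fun i => sq_const (w := fun _ => G * q i) (du i) (dv i)
  have cρ : ∀ t ∈ Icc (0:ℝ) T, C t ^ 2 + S t ^ 2 = C 0 ^ 2 + S 0 ^ 2 :=
    sq_const (w := fun t => C t ^ 2 * b t) hs.dC hs.dS
  set R : κ → ℝ := fun i => u i 0 ^ 2 + v i 0 ^ 2 with hR
  have hR0 : ∀ i, 0 ≤ R i := fun i => by positivity
  have hR1 : ∀ i, R i ≤ 1 := by
    intro i
    have h1 := sqlt _ (hu i)
    have h2 := sqlt _ (hv i)
    simp only [hR]; linarith
  have hC1 : ∀ t ∈ Icc (0:ℝ) T, C t ^ 2 ≤ 1 := by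
    intro t ht
    have h1 := cρ t ht
    have h2 := sqlt _ hC
    have h3 := sqlt _ hS
    nlinarith [sq_nonneg (S t)]
  set E := q0 ^ (2 * M) * ∏ i, R i with hE
  have hprod0 : 0 ≤ ∏ i, R i := Finset.prod_nonneg (fun i _ => hR0 i)
  have hprod1 : ∏ i, R i ≤ 1 := Finset.prod_le_one (fun i _ => hR0 i) (fun i _ => hR1 i)
  have hE0 : 0 ≤ E := mul_nonneg (pow_nonneg hq00 _) hprod0
  have hEle : E ≤ q0 ^ (2 * M) := by
    calc E ≤ q0 ^ (2 * M) * 1 := mul_le_mul_of_nonneg_left hprod1 (pow_nonneg hq00 _)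
      _ = q0 ^ (2 * M) := mul_one _
  -- the rate
  set L : ℝ → ℝ := fun t => G * C t ^ 2 *
    (E - ∑ i, v i t ^ 2 - H q0 q ^ 2 - (q i0 - n * q0) ^ 2) with hL
  have dz : ∀ t ∈ Icc (0:ℝ) T, HasDerivWithinAt z (z t * L t) (Icc 0 T) t := by
    intro t ht
    have h1 := hs.dz t ht
    refine h1.congr_deriv ?_
    have e1 : ∏ i, (u i t ^ 2 + v i t ^ 2) = ∏ i, R i :=
      Finset.prod_congr rfl (fun i _ => cR i t ht)
    have e2 : (fun i => p i t ^ 2) = q := by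
      funext i; rw [cp i t ht]
    rw [cg t ht, cp0 t ht, e1, e2, cp i0 t ht]
  have hsum0 : ∀ t, 0 ≤ ∑ i, v i t ^ 2 := fun t => Finset.sum_nonneg (fun i _ => sq_nonneg _)
  -- the nonpositive case
  have hnonpos : (∀ t ∈ Icc (0:ℝ) T, L t ≤ 0) → ∀ t ∈ Icc (0:ℝ) T, z t ^ 2 ≤ z 0 ^ 2 * 4 := by
    intro h t ht
    have h1 := growth dz h le_rfl ht.1 ht.2
    simp only [mul_zero, zero_mul, Real.exp_zero, mul_one] at h1
    nlinarith [sq_nonneg (z 0)]
  have hGC : ∀ t, 0 ≤ G * C t ^ 2 := fun t => mul_nonneg hG0 (sq_nonneg _)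
  rcases eq_or_lt_of_le hG0 with hGz | hGpos
  · apply hnonpos
    intro t ht
    simp only [hL]
    rw [← hGz]; simp
  rcases eq_or_lt_of_le hq00 with hqz | hqpos
  · apply hnonpos
    intro t ht
    simp only [hL]
    apply mul_nonpos_of_nonneg_of_nonpos (hGC t)
    have : E = 0 := by
      rw [hE, ← hqz, zero_pow (by omega), zero_mul]
    rw [this]
    nlinarith [hsum0 t, sq_nonneg (H q0 q), sq_nonneg (q i0 - n * q0)]
  have hq0K : q0 ≤ 1 / (2 * K) := by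
    have h1 : q0 ≤ δ ^ 2 := sqlt _ hp0
    have h2 : δ ^ 2 ≤ δ := by nlinarith
    linarith
  rcases trichotomy hP i0 n hint hM2 hMd hMd' hqpos (by linarith) hq0K hqi0 hqile with
    h | h | ⟨i, hi⟩
  · apply hnonpos
    intro t ht
    simp only [hL]
    apply mul_nonpos_of_nonneg_of_nonpos (hGC t)
    nlinarith [hsum0 t, sq_nonneg (q i0 - n * q0)]
  · apply hnonpos
    intro t ht
    simp only [hL]
    apply mul_nonpos_of_nonneg_of_nonpos (hGC t)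
    nlinarith [hsum0 t, sq_nonneg (H q0 q)]
  · -- the resonance test fails for i
    set τ := Real.pi / (G * q0) with hτ
    have hGq : 0 < G * q0 := mul_pos hGpos hqpos
    have hτ0 : 0 ≤ τ := div_nonneg Real.pi_pos.le hGq.le
    set c := G * q0 ^ (2 * M) with hc
    have hc0 : 0 ≤ c := mul_nonneg hG0 (pow_nonneg hq00 _)
    have hLc : ∀ t ∈ Icc (0:ℝ) T, L t ≤ c := by
      intro t ht
      simp only [hL]
      have h1 : E - ∑ i, v i t ^ 2 - H q0 q ^ 2 - (q i0 - n * q0) ^ 2 ≤ q0 ^ (2 * M) := by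
        nlinarith [hsum0 t, sq_nonneg (H q0 q), sq_nonneg (q i0 - n * q0)]
      have h2 : G * C t ^ 2 ≤ G := by
        nlinarith [hC1 t ht]
      calc G * C t ^ 2 * (E - ∑ i, v i t ^ 2 - H q0 q ^ 2 - (q i0 - n * q0) ^ 2)
          ≤ G * C t ^ 2 * q0 ^ (2 * M) := mul_le_mul_of_nonneg_left h1 (hGC t)
        _ ≤ G * q0 ^ (2 * M) := mul_le_mul_of_nonneg_right h2 (pow_nonneg hq00 _)
    have hpair : ∀ t, 0 ≤ t → t + τ ≤ T → L t + L (t + τ) ≤ 0 := by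
      intro t ht htT
      have hmem : t ∈ Icc (0:ℝ) T := ⟨ht, by linarith⟩
      have hmem' : t + τ ∈ Icc (0:ℝ) T := ⟨by linarith, htT⟩
      have e1 : (2 * G * q0) * τ = 2 * Real.pi := by
        rw [hτ]; field_simp
      have ha := (rot_shift da db ht hτ0 htT).1
      rw [e1, Real.cos_two_pi, Real.sin_two_pi] at ha
      have ha' : a (t + τ) = a t := by rw [ha]; ring
      have hCC : C (t + τ) ^ 2 = C t ^ 2 :=
        comb (by positivity : (2 * G * q0) ≠ 0) da db hs.dC hs.dS hmem' hmem ha'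
      have e2 : (G * q i) * τ = Real.pi * (q i / q0) := by
        rw [hτ]; field_simp
      have hvi := (rot_shift (du i) (dv i) ht hτ0 htT).2
      rw [e2] at hvi
      have hpg := pair_ge (u i t) (v i t) (Real.cos (Real.pi * (q i / q0)))
        (Real.sin (Real.pi * (q i / q0))) (Real.sin_sq_add_cos_sq _)
      rw [← hvi, cR i t hmem] at hpg
      have hsplit : ∏ j, R j ≤ R i := by
        rw [← Finset.mul_prod_erase Finset.univ R (Finset.mem_univ i)]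
        have : ∏ j ∈ Finset.univ.erase i, R j ≤ 1 :=
          Finset.prod_le_one (fun j _ => hR0 j) (fun j _ => hR1 j)
        calc R i * ∏ j ∈ Finset.univ.erase i, R j ≤ R i * 1 :=
              mul_le_mul_of_nonneg_left this (hR0 i)
          _ = R i := mul_one _
      have hE2 : 2 * E ≤ R i * (1 - |Real.cos (Real.pi * (q i / q0))|) := by
        calc 2 * E = (∏ j, R j) * (2 * q0 ^ (2 * M)) := by rw [hE]; ring
          _ ≤ R i * (2 * q0 ^ (2 * M)) :=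
            mul_le_mul_of_nonneg_right hsplit (by positivity)
          _ ≤ R i * (1 - |Real.cos (Real.pi * (q i / q0))|) :=
            mul_le_mul_of_nonneg_left hi (hR0 i)
      have hv1 : v i t ^ 2 ≤ ∑ j, v j t ^ 2 :=
        Finset.single_le_sum (f := fun j => v j t ^ 2) (fun j _ => sq_nonneg _) (Finset.mem_univ i)
      have hv2 : v i (t + τ) ^ 2 ≤ ∑ j, v j (t + τ) ^ 2 :=
        Finset.single_le_sum (f := fun j => v j (t + τ) ^ 2) (fun j _ => sq_nonneg _)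
          (Finset.mem_univ i)
      have hLt : ∀ s, L s = G * C s ^ 2 *
        (E - ∑ i, v i s ^ 2 - H q0 q ^ 2 - (q i0 - n * q0) ^ 2) := fun s => rfl
      have hRi : R i = u i 0 ^ 2 + v i 0 ^ 2 := rfl
      rw [← hRi] at hpg
      have hsum : L t + L (t + τ) = G * C t ^ 2 * (2 * E - ∑ j, v j t ^ 2 - ∑ j, v j (t + τ) ^ 2
          - 2 * H q0 q ^ 2 - 2 * (q i0 - n * q0) ^ 2) := by
        rw [hLt t, hLt (t + τ), hCC]; ring
      rw [hsum]
      apply mul_nonpos_of_nonneg_of_nonpos (hGC t)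
      have hH2 := sq_nonneg (H q0 q)
      have hn2 := sq_nonneg (q i0 - n * q0)
      linarith
    intro t ht
    have h1 := bounded_of_pair hc0 hτ0 dz hLc hpair t ht
    have h2 : 4 * c * τ ≤ 1 := by
      have h3 : 4 * c * τ = 4 * Real.pi * q0 ^ (2 * M - 1) := by
        have h4 : q0 ^ (2 * M) = q0 ^ (2 * M - 1) * q0 := by
          rw [← pow_succ]; congr 1; omega
        rw [hc, hτ, h4]; field_simp
      rw [h3]
      have h5 : q0 ^ (2 * M - 1) ≤ q0 ^ 1 :=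
        pow_le_pow_of_le_one hq00 (by linarith) (by omega)
      have h6 : Real.pi < 3.15 := Real.pi_lt_d2
      have h7 : q0 ^ (2 * M - 1) ≤ 1 / 16 := by rw [pow_one] at h5; linarith
      have h8 : 0 ≤ q0 ^ (2 * M - 1) := pow_nonneg hq00 _
      nlinarith [Real.pi_pos]
    have h9 : Real.exp (4 * c * τ) ≤ 4 := by
      calc Real.exp (4 * c * τ) ≤ Real.exp 1 := Real.exp_le_exp.2 h2
        _ ≤ 4 := by linarith [Real.exp_one_lt_d9]
    exact h1.trans (mul_le_mul_of_nonneg_left h9 (sq_nonneg _))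

end Pool.Agent.H94.Stab
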